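import Pool.Agent.Lib.MP_305fdd_al.Su.CO.Uv
import Pool.Agent.Lib.MP_305fdd_al.Su.Min.N

/-!
# MP_305fdd_al, surface groups, block CO: final form
-/

set_option autoImplicit false

namespace Pool.Agent.SuCO

open Pool.Agent.FrN Pool.Agent.FrNA Pool.Agent.Lib.MP_305fdd_al Pool.Agent.SuTR Pool.Agent.SuInd
open Pool.Agent.SuMin (SameC)
open Matrix

theorem hasComp : HasComp := fun B _ _ J =>
  ⟨AdicCompletion J B, inferInstance, algebraMap B (AdicCompletion J B), SuMin.comp_adic J⟩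

section final

variable {p : ℕ} [Fact p.Prime] {Λ Δ K K' F F' : Type} [Group Λ] [Group Δ] [Field K] [Field K']
  [Field F] [Field F'] [Algebra (ZMod p) K] [Algebra (ZMod p) K'] [Algebra (ZMod p) F]
  [Algebra (ZMod p) F'] [Algebra K F] [Algebra K' F'] {T : Λ → K} {T' : Δ → K'}
  {ρ : Λ →* SpecialLinearGroup (Fin 2) F} {ρ' : Δ →* SpecialLinearGroup (Fin 2) F'}
  {Φ : NatBij Λ Δ} {X : Set Λ} {X' : Set Δ}

/-- THEOREM CO: the completions of the trace rings at the points of degree at most `d` agree, with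
the ideals with the same finite images -/
theorem sameI (H : TR p T ρ) (H' : TR p T' ρ') (hΦ : Tp p Φ ρ ρ') (hΦ' : Tp p Φ.symm ρ' ρ)
    (d : ℕ) : ∃ (R : Type) (_ : CommRing R) (φ : BB p T →+* R) (φ' : BB p T' →+* R),
      Comp φ (JJ p d (BB p T)) ∧ Comp φ' (JJ p d (BB p T')) ∧
      ∀ (I : Ideal (BB p T)) (I' : Ideal (BB p T')), MI Φ I I' → I.map φ = I'.map φ' :=
  same hasComp H H' hΦ hΦ' d

end final

section two

variable {Λ Δ K K' F F' : Type} [Group Λ] [Group Δ] [Field K] [Field K']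
  [Field F] [Field F'] [Algebra (ZMod 2) K] [Algebra (ZMod 2) K'] [Algebra (ZMod 2) F]
  [Algebra (ZMod 2) F'] [Algebra K F] [Algebra K' F'] {T : Λ → K} {T' : Δ → K'}
  {ρ : Λ →* SpecialLinearGroup (Fin 2) F} {ρ' : Δ →* SpecialLinearGroup (Fin 2) F'}
  {Φ : NatBij Λ Δ} {X : Set Λ} {X' : Set Δ}

/-- the form used in blocks MIN and TR -/
theorem sameC (H : TR 2 T ρ) (H' : TR 2 T' ρ') (hΦ : Tp 2 Φ ρ ρ') (hΦ' : Tp 2 Φ.symm ρ' ρ) :
    SameC (BB 2 T) (BB 2 T') := fun d => by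
  obtain ⟨R, _, φ, φ', h1, h2, h3⟩ := sameI H H' hΦ hΦ' d
  exact ⟨R, _, φ, φ', h1, h2, h3 _ _ (MI.JJ d)⟩

/-- the form with the ideals -/
theorem sameJ (H : TR 2 T ρ) (H' : TR 2 T' ρ') (hΦ : Tp 2 Φ ρ ρ') (hΦ' : Tp 2 Φ.symm ρ' ρ)
    (d : ℕ) : ∃ (R : Type) (_ : CommRing R) (φ : BB 2 T →+* R) (φ' : BB 2 T' →+* R),
      Comp φ (Jd d (BB 2 T)) ∧ Comp φ' (Jd d (BB 2 T')) ∧
      (Jd d (BB 2 T)).map φ = (Jd d (BB 2 T')).map φ' ∧
      ∀ (I : Ideal (BB 2 T)) (I' : Ideal (BB 2 T')), MI Φ I I' → I.map φ = I'.map φ' := by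
  obtain ⟨R, _, φ, φ', h1, h2, h3⟩ := sameI H H' hΦ hΦ' d
  exact ⟨R, _, φ, φ', h1, h2, h3 _ _ (MI.JJ d), h3⟩

/-- from the universal properties -/
theorem sameC_UG (hfg : Group.FG Λ) (hfg' : Group.FG Δ)
    (htr : ∀ g, (ρ g).1.trace = algebraMap K F (T g))
    (htr' : ∀ g, (ρ' g).1.trace = algebraMap K' F' (T' g))
    (hfr : Frc (BB 2 T)) (hfr' : Frc (BB 2 T')) (hX : MS Φ X X') (hU : UG 2 ρ (zX X))
    (hU' : UG 2 ρ' (zX X')) (h0 : ∃ g ∈ X, T g ≠ 2) (h0' : ∃ g ∈ X', T' g ≠ 2) :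
    SameC (BB 2 T) (BB 2 T') :=
  sameC (TR.of_UGX hfg htr hfr hU h0) (TR.of_UGX hfg' htr' hfr' hU' h0')
    (Tp.of_UGX hasComp hfg htr hX hU' h0) (Tp.of_UGX hasComp hfg' htr' hX.symm hU h0')

end two

end Pool.Agent.SuCO
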