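import Pool.Agent.Lib.MP_305fdd_al.Su.CO.Rf
import Pool.Agent.Lib.MP_305fdd_al.NatBij

/-!
# MP_305fdd_al, surface groups, block CO: the finite quotients of the trace rings of two groups with
the same finite quotients

`Φ : NatBij Λ Δ`, `ρ : Λ → SL₂(F)` and `ρ' : Δ → SL₂(F')` with trace rings `B` and `B'`.  A
homomorphism `a : B → R` and a homomorphism `a' : B' → R` match (`Mt`) if they are, on the traces, the
same function of a finite quotient.  If the specialisations of `ρ` over finite rings are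
transported to specialisations of `ρ'` (`Tp`), then every `a : B → R`, `R` finite, has exactly one
match `a' : B' → R`.
-/

set_option autoImplicit false

namespace Pool.Agent.SuCO

open Pool.Agent.FrN Pool.Agent.Lib.MP_305fdd_al

/-- the specialisations of `ρ` over finite rings are transported to specialisations of `ρ'` -/
def Tp (p : ℕ) {Λ Δ F F' : Type} [Group Λ] [Group Δ] [Field F] [Field F'] [Algebra (ZMod p) F]
    [Algebra (ZMod p) F'] (Φ : NatBij Λ Δ) (ρ : Λ →* Matrix.SpecialLinearGroup (Fin 2) F)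
    (ρ' : Δ →* Matrix.SpecialLinearGroup (Fin 2) F') : Prop :=
  ∀ (R : Type) [CommRing R] [Algebra (ZMod p) R] [Finite R]
    [Finite (Matrix.SpecialLinearGroup (Fin 2) R)] (r : Λ →* Matrix.SpecialLinearGroup (Fin 2) R),
    Sp p ρ r → Sp p ρ' (Φ.toFun (Matrix.SpecialLinearGroup (Fin 2) R) r)

section mt

variable {p : ℕ} {Λ Δ K K' : Type} [Group Λ] [Group Δ] [Field K] [Field K'] [Algebra (ZMod p) K]
  [Algebra (ZMod p) K'] {T : Λ → K} {T' : Δ → K'}

/-- `a` and `a'` are given on the traces by the same function of a finite quotient -/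
def Mt (Φ : NatBij Λ Δ) {R : Type} [CommRing R] [Algebra (ZMod p) R]
    (a : BB p T →ₐ[ZMod p] R) (a' : BB p T' →ₐ[ZMod p] R) : Prop :=
  ∃ (Q : Type) (_ : Group Q) (_ : Finite Q) (θ : Λ →* Q) (t : Q → R),
    (∀ g, a (bT p T g) = t (θ g)) ∧ ∀ g, a' (bT p T' g) = t (Φ.toFun Q θ g)

variable {Φ : NatBij Λ Δ} {R S : Type} [CommRing R] [Algebra (ZMod p) R] [CommRing S]
  [Algebra (ZMod p) S] {a : BB p T →ₐ[ZMod p] R} {a' : BB p T' →ₐ[ZMod p] R}
  {b : BB p T →ₐ[ZMod p] S} {b' : BB p T' →ₐ[ZMod p] S}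

theorem Mt.symm (h : Mt Φ a a') : Mt Φ.symm a' a := by
  obtain ⟨Q, hQ, hQ', θ, t, h1, h2⟩ := h
  refine ⟨Q, hQ, hQ', Φ.toFun Q θ, t, h2, fun g => ?_⟩
  rw [show Φ.symm.toFun Q (Φ.toFun Q θ) = θ from Φ.left_inv Q θ]
  exact h1 g

theorem Mt.comp (h : Mt Φ a a') (f : R →ₐ[ZMod p] S) : Mt Φ (f.comp a) (f.comp a') := by
  obtain ⟨Q, hQ, hQ', θ, t, h1, h2⟩ := h
  exact ⟨Q, hQ, hQ', θ, fun q => f (t q), fun g => congrArg f (h1 g), fun g => congrArg f (h2 g)⟩

/-- two matching pairs are functions of one finite quotient -/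
theorem Mt.two (h : Mt Φ a a') (h' : Mt Φ b b') :
    ∃ (Q : Type) (_ : Group Q) (_ : Finite Q) (θ : Λ →* Q) (t : Q → R) (s : Q → S),
      (∀ g, a (bT p T g) = t (θ g)) ∧ (∀ g, a' (bT p T' g) = t (Φ.toFun Q θ g)) ∧
      (∀ g, b (bT p T g) = s (θ g)) ∧ ∀ g, b' (bT p T' g) = s (Φ.toFun Q θ g) := by
  obtain ⟨Q₁, hQ₁, hQ₁', θ₁, t, h1, h2⟩ := h
  obtain ⟨Q₂, hQ₂, hQ₂', θ₂, s, h3, h4⟩ := h'
  have e1 : (MonoidHom.fst Q₁ Q₂).comp (θ₁.prod θ₂) = θ₁ := MonoidHom.fst_comp_prod _ _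
  have e2 : (MonoidHom.snd Q₁ Q₂).comp (θ₁.prod θ₂) = θ₂ := MonoidHom.snd_comp_prod _ _
  have n1 := Φ.nat (MonoidHom.fst Q₁ Q₂) (θ₁.prod θ₂)
  have n2 := Φ.nat (MonoidHom.snd Q₁ Q₂) (θ₁.prod θ₂)
  rw [e1] at n1
  rw [e2] at n2
  refine ⟨Q₁ × Q₂, inferInstance, inferInstance, θ₁.prod θ₂, fun q => t q.1, fun q => s q.2,
    h1, fun g => ?_, h3, fun g => ?_⟩
  · rw [h2, n1]
    rfl
  · rw [h4, n2]
    rfl

theorem Mt.ex (h : Mt Φ a a') (h' : Mt Φ b b') (g : Δ) :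
    ∃ x : Λ, a' (bT p T' g) = a (bT p T x) ∧ b' (bT p T' g) = b (bT p T x) := by
  obtain ⟨Q, hQ, hQ', θ, t, s, h1, h2, h3, h4⟩ := h.two h'
  have h5 : Φ.toFun Q θ g ∈ θ.range := by
    rw [← Φ.range_eq]
    exact ⟨g, rfl⟩
  obtain ⟨x, hx⟩ := h5
  exact ⟨x, by rw [h2, h1, hx], by rw [h4, h3, hx]⟩

omit [Group Λ] in
theorem bT_mem_range (a : BB p T →ₐ[ZMod p] R) (g : Λ) : a (bT p T g) ∈ a.range := ⟨_, rfl⟩

omit [Group Λ] in
theorem range_le_of {A : Subalgebra (ZMod p) R} (h : ∀ g, a (bT p T g) ∈ A) (y : BB p T) :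
    a y ∈ A := by
  obtain ⟨y, hy⟩ := y
  induction hy using Algebra.adjoin_induction with
  | mem x hx =>
    obtain ⟨g, rfl⟩ := hx
    exact h g
  | algebraMap r =>
    have h1 : a ⟨algebraMap (ZMod p) K r, (BB p T).algebraMap_mem r⟩ = algebraMap (ZMod p) R r :=
      a.commutes r
    rw [h1]
    exact A.algebraMap_mem r
  | add x y hx hy h1 h2 =>
    have h3 : (⟨x + y, add_mem hx hy⟩ : BB p T) = ⟨x, hx⟩ + ⟨y, hy⟩ := rfl
    rw [h3, map_add]
    exact add_mem h1 h2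
  | mul x y hx hy h1 h2 =>
    have h3 : (⟨x * y, mul_mem hx hy⟩ : BB p T) = ⟨x, hx⟩ * ⟨y, hy⟩ := rfl
    rw [h3, map_mul]
    exact mul_mem h1 h2

omit [Group Λ] in
theorem hom_ext {a₁ a₂ : BB p T →ₐ[ZMod p] R} (h : ∀ g, a₁ (bT p T g) = a₂ (bT p T g)) :
    a₁ = a₂ := by
  refine AlgHom.ext fun y => ?_
  obtain ⟨y, hy⟩ := y
  induction hy using Algebra.adjoin_induction with
  | mem x hx =>
    obtain ⟨g, rfl⟩ := hx
    exact h g
  | algebraMap r => exact (a₁.commutes r).trans (a₂.commutes r).symm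
  | add x y hx hy h1 h2 =>
    have h3 : (⟨x + y, add_mem hx hy⟩ : BB p T) = ⟨x, hx⟩ + ⟨y, hy⟩ := rfl
    rw [h3, map_add, map_add, h1, h2]
  | mul x y hx hy h1 h2 =>
    have h3 : (⟨x * y, mul_mem hx hy⟩ : BB p T) = ⟨x, hx⟩ * ⟨y, hy⟩ := rfl
    rw [h3, map_mul, map_mul, h1, h2]

/-- the match is unique -/
theorem Mt.unique {a'' : BB p T' →ₐ[ZMod p] R} (h : Mt Φ a a') (h' : Mt Φ a a'') : a' = a'' := by
  refine hom_ext fun g => ?_
  obtain ⟨x, h1, h2⟩ := h.ex h' g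
  rw [h1, h2]

theorem Mt.unique' {a₂ : BB p T →ₐ[ZMod p] R} (h : Mt Φ a a') (h' : Mt Φ a₂ a') : a = a₂ :=
  h.symm.unique h'.symm

theorem Mt.range_le (h : Mt Φ a a') : a'.range ≤ a.range := by
  rintro _ ⟨y, rfl⟩
  refine range_le_of (a := a') (fun g => ?_) y
  obtain ⟨x, h1, _⟩ := h.ex h g
  rw [h1]
  exact ⟨_, rfl⟩

/-- matching homomorphisms have the same image -/
theorem Mt.range_eq (h : Mt Φ a a') : a'.range = a.range :=
  le_antisymm h.range_le h.symm.range_le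

theorem Mt.surj (h : Mt Φ a a') (hs : Function.Surjective a) : Function.Surjective a' := by
  rw [← AlgHom.range_eq_top, h.range_eq, AlgHom.range_eq_top]
  exact hs

end mt

/-- lifting a homomorphism through a homomorphism with a smaller kernel -/
theorem exists_lift {k A B S R : Type} [CommRing k] [CommRing A] [CommRing B] [CommRing S]
    [CommRing R] [Algebra k A] [Algebra k B] [Algebra k S] [Algebra k R] (κ : A →ₐ[k] S)
    (a : A →ₐ[k] R) (h : ∀ x, κ x = 0 → a x = 0) (f : B →ₐ[k] S) (hf : ∀ y, ∃ x, κ x = f y) :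
    ∃ a' : B →ₐ[k] R, ∀ y x, κ x = f y → a' y = a x := by
  have hw : ∀ x x', κ x = κ x' → a x = a x' := fun x x' hx => by
    rw [← sub_eq_zero, ← map_sub]
    exact h _ (by rw [map_sub, hx, sub_self])
  choose s hs using hf
  let a' : B →ₐ[k] R :=
    { toFun := fun y => a (s y)
      map_one' := by
        rw [← map_one a]
        exact hw _ _ (by rw [hs, map_one, map_one])
      map_mul' := fun x y => by
        rw [← map_mul]
        exact hw _ _ (by rw [hs, map_mul, map_mul, hs, hs])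
      map_zero' := by
        change a (s 0) = 0
        rw [← map_zero a]
        exact hw _ _ (by rw [hs, map_zero, map_zero])
      map_add' := fun x y => by
        change a (s (x + y)) = a (s x) + a (s y)
        rw [← map_add]
        exact hw _ _ (by rw [hs, map_add, map_add, hs, hs])
      commutes' := fun r => by
        rw [← AlgHom.commutes a r]
        exact hw _ _ (by rw [hs, AlgHom.commutes, AlgHom.commutes]) }
  exact ⟨a', fun y x hx => hw _ _ (by rw [hs, hx])⟩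

section main

variable {p : ℕ} [Fact p.Prime] {Λ Δ K K' F F' : Type} [Group Λ] [Group Δ] [Field K] [Field K']
  [Field F] [Field F'] [Algebra (ZMod p) K] [Algebra (ZMod p) K'] [Algebra (ZMod p) F]
  [Algebra (ZMod p) F'] [Algebra K F] [Algebra K' F'] {T : Λ → K} {T' : Δ → K'}
  {ρ : Λ →* Matrix.SpecialLinearGroup (Fin 2) F} {ρ' : Δ →* Matrix.SpecialLinearGroup (Fin 2) F'}

theorem finite_SL {R : Type} [CommRing R] [Finite R] :
    Finite (Matrix.SpecialLinearGroup (Fin 2) R) :=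
  Finite.of_injective (fun g : Matrix.SpecialLinearGroup (Fin 2) R => fun i j => g.1 i j)
    fun _ _ e => Subtype.ext (Matrix.ext fun i j => congrFun (congrFun e i) j)

/-- the reduction of `ρ` -/
def redOO (ρ : Λ →* Matrix.SpecialLinearGroup (Fin 2) F) {R : Type} [CommRing R]
    [Algebra (ZMod p) R] (φ : OO p ρ →ₐ[ZMod p] R) : Λ →* Matrix.SpecialLinearGroup (Fin 2) R where
  toFun g := ⟨Matrix.of fun i j => φ ⟨(ρ g).1 i j, mem_OO ρ g i j⟩, by
    rw [Matrix.det_fin_two]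
    simp only [Matrix.of_apply]
    rw [← map_mul, ← map_mul, ← map_sub, ← map_one φ]
    refine congrArg φ (Subtype.ext ?_)
    have h1 := (ρ g).2
    rw [Matrix.det_fin_two] at h1
    exact h1⟩
  map_one' := by
    apply Subtype.ext
    ext i j
    change φ ⟨(ρ 1).1 i j, mem_OO ρ 1 i j⟩ = (1 : Matrix (Fin 2) (Fin 2) R) i j
    have h1 : (⟨(ρ 1).1 i j, mem_OO ρ 1 i j⟩ : OO p ρ) = (1 : Matrix (Fin 2) (Fin 2) (OO p ρ)) i j := by
      apply Subtype.ext
      change (ρ 1).1 i j = _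
      rw [map_one]
      fin_cases i <;> fin_cases j <;> rfl
    rw [h1]
    fin_cases i <;> fin_cases j
    · exact map_one φ
    · exact map_zero φ
    · exact map_zero φ
    · exact map_one φ
  map_mul' g h := by
    apply Subtype.ext
    ext i j
    change φ ⟨(ρ (g * h)).1 i j, mem_OO ρ (g * h) i j⟩ = ((Matrix.of fun i j =>
      φ ⟨(ρ g).1 i j, mem_OO ρ g i j⟩) * (Matrix.of fun i j =>
      φ ⟨(ρ h).1 i j, mem_OO ρ h i j⟩) : Matrix (Fin 2) (Fin 2) R) i j
    rw [Matrix.mul_apply, Fin.sum_univ_two]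
    simp only [Matrix.of_apply]
    rw [← map_mul, ← map_mul, ← map_add]
    refine congrArg φ (Subtype.ext ?_)
    change (ρ (g * h)).1 i j = (ρ g).1 i 0 * (ρ h).1 0 j + (ρ g).1 i 1 * (ρ h).1 1 j
    rw [map_mul]
    change ((ρ g).1 * (ρ h).1) i j = _
    rw [Matrix.mul_apply, Fin.sum_univ_two]

theorem redOO_apply {R : Type} [CommRing R] [Algebra (ZMod p) R] (φ : OO p ρ →ₐ[ZMod p] R)
    (g : Λ) (i j : Fin 2) : (redOO ρ φ g).1 i j = φ ⟨(ρ g).1 i j, mem_OO ρ g i j⟩ := rfl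

/-- EXISTENCE of the match -/
theorem exists_mt (H : TR p T ρ) (H' : TR p T' ρ') {Φ : NatBij Λ Δ} (hΦ : Tp p Φ ρ ρ')
    {R : Type} [CommRing R] [Algebra (ZMod p) R] [Finite R] (a : BB p T →ₐ[ZMod p] R) :
    ∃ a' : BB p T' →ₐ[ZMod p] R, Mt Φ a a' := by
  have hc : Finite (BB p T ⧸ RingHom.ker (a : BB p T →+* R)) :=
    Finite.of_injective _ (RingHom.kerLift_injective (a : BB p T →+* R))
  obtain ⟨J, hJ, hJ2⟩ := H.exists_ideal (RingHom.ker (a : BB p T →+* R))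
  let S := OO p ρ ⧸ J
  have hSL : Finite (Matrix.SpecialLinearGroup (Fin 2) S) := finite_SL
  let θ : Λ →* Matrix.SpecialLinearGroup (Fin 2) S := redOO ρ (Ideal.Quotient.mkₐ (ZMod p) J)
  obtain ⟨φ, hφ⟩ := hΦ S θ ⟨Ideal.Quotient.mkₐ (ZMod p) J, fun g i j => rfl⟩
  let κ : BB p T →ₐ[ZMod p] S := (Ideal.Quotient.mkₐ (ZMod p) J).comp H.inc
  let f : BB p T' →ₐ[ZMod p] S := φ.comp H'.inc
  have hκ : ∀ x, κ x = 0 → a x = 0 := fun x hx => hJ2 x (Ideal.Quotient.eq_zero_iff_mem.1 hx)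
  have hκT : ∀ g, κ (bT p T g) = (θ g).1.trace := fun g => by
    rw [Matrix.trace_fin_two]
    change Ideal.Quotient.mkₐ (ZMod p) J (H.inc (bT p T g)) = _
    rw [H.inc_T, map_add]
    rfl
  have hfT : ∀ g, f (bT p T' g) = (Φ.toFun _ θ g).1.trace := fun g => by
    rw [Matrix.trace_fin_two]
    change φ (H'.inc (bT p T' g)) = _
    rw [H'.inc_T, map_add, hφ, hφ]
  have hr : ∀ g, ∃ x, θ x = Φ.toFun _ θ g := fun g => by
    have h5 : Φ.toFun _ θ g ∈ θ.range := by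
      rw [← Φ.range_eq]
      exact ⟨g, rfl⟩
    exact h5
  have hf : ∀ y, ∃ x, κ x = f y := fun y => by
    refine range_le_of (a := f) (A := κ.range) (fun g => ?_) y
    obtain ⟨x, hx⟩ := hr g
    exact ⟨bT p T x, by
      change κ _ = _
      rw [hκT, hfT, hx]⟩
  obtain ⟨a', ha'⟩ := exists_lift κ a hκ f hf
  have hft : Function.FactorsThrough (fun g => a (bT p T g)) θ := fun g h e => by
    change a (bT p T g) = a (bT p T h)
    rw [← sub_eq_zero, ← map_sub]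
    exact hκ _ (by rw [map_sub, hκT, hκT, e, sub_self])
  have ht : ∀ g, Function.extend θ (fun g => a (bT p T g)) 0 (θ g) = a (bT p T g) := fun g =>
    hft.extend_apply 0 g
  refine ⟨a', Matrix.SpecialLinearGroup (Fin 2) S, inferInstance, hSL, θ,
    Function.extend θ (fun g => a (bT p T g)) 0, fun g => (ht g).symm, fun g => ?_⟩
  obtain ⟨x, hx⟩ := hr g
  rw [← hx, ht]
  exact ha' _ _ (by rw [hκT, hfT, hx])

end main

end Pool.Agent.SuCO
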