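import Pool.Agent.Lib.MP_305fdd_al.Fr.N.J_pbex

/-!
# MP_305fdd_al, surface groups, block CO: a test element for the integral closure of ideals

`cl_main`: let `w` be a basis of the field of fractions `K` of `B` over `K ^ p`, contained in `B`, with
coordinates `π`, and `e` an element of `B` such that `π i (e B) ⊆ B`.  If `d b ^ q` is in the ideal generated
by the `q`-th powers of the elements of the ideal `J`, for all powers `q` of `p`, then `e ^ 2 b ∈ J`.
-/

set_option autoImplicit false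

namespace Pool.Agent.SuCO

open Pool.Agent.FrN Pool.Agent.F2Ch

section pinv

variable {p : ℕ} [Fact p.Prime] {K ι : Type} [Field K] [CharP K p] [Fintype ι] {w : ι → K}
  {π : ι → K → K}

theorem pb_add (h : IsPB p w π) (i : ι) (x y : K) : π i (x + y) = π i x + π i y := by
  have h1 : x + y = ∑ j, (π j x + π j y) ^ p * w j := by
    conv_lhs => rw [← h.repr x, ← h.repr y]
    rw [← Finset.sum_add_distrib]
    refine Finset.sum_congr rfl fun j _ => ?_
    rw [add_pow_char, add_mul]
  conv_lhs => rw [h1]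
  exact h.uniq _ i

omit [Fact p.Prime] [CharP K p] in
theorem pb_mul (h : IsPB p w π) (i : ι) (a b : K) : π i (a ^ p * b) = a * π i b := by
  have h1 : a ^ p * b = ∑ j, (a * π j b) ^ p * w j := by
    conv_lhs => rw [← h.repr b]
    rw [Finset.mul_sum]
    refine Finset.sum_congr rfl fun j _ => ?_
    rw [mul_pow, mul_assoc]
  conv_lhs => rw [h1]
  exact h.uniq _ i

omit [CharP K p] in
theorem pb_one (h : IsPB p w π) {i₀ : ι} (h0 : w i₀ = 1) : π i₀ 1 = 1 := by
  classical
  have h1 : (1 : K) = ∑ j, (if j = i₀ then 1 else 0 : K) ^ p * w j := by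
    rw [Finset.sum_eq_single i₀]
    · rw [if_pos rfl, one_pow, h0, mul_one]
    · intro j _ hj
      rw [if_neg hj, zero_pow (Fact.out : p.Prime).ne_zero, zero_mul]
    · intro hn
      exact absurd (Finset.mem_univ _) hn
  conv_lhs => rw [h1]
  rw [h.uniq, if_pos rfl]

theorem wd_cons {K ι : Type} [Field K] (π : ι → K → K) (i : ι) (l : List ι) (f : K) : wd π (i :: l) f = wd π l (π i f) := rfl

theorem wd_add (h : IsPB p w π) (l : List ι) (x y : K) : wd π l (x + y) = wd π l x + wd π l y := by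
  induction l generalizing x y with
  | nil => rfl
  | cons i l ih => rw [wd_cons, wd_cons, wd_cons, pb_add h, ih]

theorem wd_zero (h : IsPB p w π) (l : List ι) : wd π l 0 = 0 := by
  have := wd_add h l 0 0
  rw [add_zero] at this
  exact left_eq_add.1 this

omit [Fact p.Prime] [CharP K p] in
theorem wd_mul (h : IsPB p w π) (l : List ι) (a b : K) :
    wd π l (a ^ p ^ l.length * b) = a * wd π l b := by
  induction l generalizing b with
  | nil =>
    rw [List.length_nil, pow_zero, pow_one]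
    rfl
  | cons i l ih =>
    rw [wd_cons, wd_cons, List.length_cons, pow_succ, pow_mul, pb_mul h, ih]

omit [CharP K p] in
theorem wd_one (h : IsPB p w π) {i₀ : ι} (h0 : w i₀ = 1) (n : ℕ) :
    wd π (List.replicate n i₀) 1 = 1 := by
  induction n with
  | zero => rfl
  | succ n ih => rw [List.replicate_succ, wd_cons, pb_one h h0, ih]

end pinv

section main

variable {p : ℕ} [Fact p.Prime] {K ι : Type} [Field K] [CharP K p] [Algebra (ZMod p) K] [Fintype ι]
  {w : ι → K} {π : ι → K → K} {B : Subalgebra (ZMod p) K} {e : B}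

omit [CharP K p] in
theorem wd_mem (h : IsPB p w π) (hE : ∀ b ∈ B, ∀ i, π i (e * b) ∈ B) (l : List ι) (b : K) (hb : b ∈ B) :
    wd π l ((e : K) ^ (p ^ l.length - 1) * b) ∈ B := by
  induction l generalizing b with
  | nil =>
    rw [List.length_nil, pow_zero, Nat.sub_self, pow_zero, one_mul]
    exact hb
  | cons i l ih =>
    have hp := (Fact.out : p.Prime).two_le
    have hn : 1 ≤ p ^ l.length := Nat.one_le_pow _ _ (by omega)
    obtain ⟨m, hm⟩ : ∃ m, p ^ l.length = m + 1 := ⟨p ^ l.length - 1, by omega⟩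
    obtain ⟨r, hr⟩ : ∃ r, p = r + 2 := ⟨p - 2, by omega⟩
    have h1 : p ^ (i :: l).length - 1 = m * p + (r + 1) := by
      rw [List.length_cons, pow_succ, hm, add_mul, one_mul]
      omega
    have h2 : (e : K) ^ (p ^ (i :: l).length - 1) * b = ((e : K) ^ m) ^ p * (e * (e ^ r * b)) := by
      rw [h1, pow_add, pow_mul, pow_succ (e : K) r]
      ring
    rw [wd_cons, h2, pb_mul h]
    have h3 : p ^ l.length - 1 = m := by omega
    have h4 := ih (π i (e * (e ^ r * b))) (hE _ (mul_mem (pow_mem e.2 r) hb) i)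
    rwa [h3] at h4

omit [CharP K p] in
theorem lam_mem (h : IsPB p w π) (hE : ∀ b ∈ B, ∀ i, π i (e * b) ∈ B) (l : List ι) (b : B) :
    (e : K) * wd π l b ∈ B := by
  rw [← wd_mul h]
  have hp := (Fact.out : p.Prime).two_le
  have hn : 1 ≤ p ^ l.length := Nat.one_le_pow _ _ (by omega)
  obtain ⟨m, hm⟩ : ∃ m, p ^ l.length = m + 1 := ⟨p ^ l.length - 1, by omega⟩
  have h1 : (e : K) ^ p ^ l.length * b = e ^ (p ^ l.length - 1) * (e * b) := by
    rw [hm, Nat.add_sub_cancel, pow_succ]
    ring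
  rw [h1]
  exact wd_mem h hE l _ (mul_mem e.2 b.2)

/-- the `q ^ -1`-linear maps of `B` -/
noncomputable def lam (h : IsPB p w π) (hE : ∀ b ∈ B, ∀ i, π i (e * b) ∈ B) (l : List ι) (b : B) : B :=
  ⟨(e : K) * wd π l b, lam_mem h hE l b⟩

theorem lam_add (h : IsPB p w π) (hE : ∀ b ∈ B, ∀ i, π i (e * b) ∈ B) (l : List ι) (x y : B) :
    lam h hE l (x + y) = lam h hE l x + lam h hE l y := by
  apply Subtype.ext
  change (e : K) * wd π l ((x : K) + y) = e * wd π l x + e * wd π l y
  rw [wd_add h, mul_add]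

theorem lam_zero (h : IsPB p w π) (hE : ∀ b ∈ B, ∀ i, π i (e * b) ∈ B) (l : List ι) :
    lam h hE l 0 = 0 := by
  apply Subtype.ext
  change (e : K) * wd π l 0 = 0
  rw [wd_zero h, mul_zero]

omit [CharP K p] in
theorem lam_mul (h : IsPB p w π) (hE : ∀ b ∈ B, ∀ i, π i (e * b) ∈ B) (l : List ι) (x y : B) :
    lam h hE l (x ^ p ^ l.length * y) = x * lam h hE l y := by
  apply Subtype.ext
  change (e : K) * wd π l (((x ^ p ^ l.length * y : B)) : K) = x * (e * wd π l y)
  push_cast
  rw [wd_mul h]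
  ring

/-- the ideal generated by the `q`-th powers -/
def FP {R : Type} [CommRing R] (J : Ideal R) (q : ℕ) : Ideal R := Ideal.span {x | ∃ z ∈ J, x = z ^ q}

theorem FP_one {R : Type} [CommRing R] (J : Ideal R) : FP J 1 = J := by
  apply le_antisymm
  · rw [FP, Ideal.span_le]
    rintro _ ⟨z, hz, rfl⟩
    rw [pow_one]
    exact hz
  · intro z hz
    exact Ideal.subset_span ⟨z, hz, (pow_one z).symm⟩

theorem lam_FP (h : IsPB p w π) (hE : ∀ b ∈ B, ∀ i, π i (e * b) ∈ B) (l : List ι) (J : Ideal B) (q : ℕ)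
    (x : B) (hx : x ∈ FP J (q * p ^ l.length)) : lam h hE l x ∈ FP J q := by
  have hz : ∀ y : B, ∀ z ∈ J, lam h hE l (y * z ^ (q * p ^ l.length)) ∈ FP J q := by
    intro y z hz
    rw [pow_mul, mul_comm, lam_mul h hE]
    exact Ideal.mul_mem_right _ _ (Ideal.subset_span ⟨z, hz, rfl⟩)
  suffices hs : ∀ y : B, lam h hE l (y * x) ∈ FP J q by
    have := hs 1
    rwa [one_mul] at this
  induction hx using Submodule.span_induction with
  | mem x hx =>
    obtain ⟨z, hz', rfl⟩ := hx
    exact fun y => hz y z hz'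
  | zero =>
    intro y
    rw [mul_zero, lam_zero]
    exact Ideal.zero_mem _
  | add x x' _ _ h1 h2 =>
    intro y
    rw [mul_add, lam_add]
    exact Ideal.add_mem _ (h1 y) (h2 y)
  | smul c x _ h1 =>
    intro y
    rw [smul_eq_mul, ← mul_assoc]
    exact h1 (y * c)

omit [CharP K p] in
/-- expansion with respect to the basis over `K ^ (p ^ n)` -/
theorem expand (h : IsPB p w π) (hw : ∀ i, w i ∈ B) (P : Ideal B) (n : ℕ) (f : K)
    (hf : ∀ l : List ι, l.length = n → ∃ y ∈ P, (e : K) * wd π l f = (y : B)) :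
    ∃ y ∈ P ^ p ^ n, (e : K) ^ p ^ n * f = (y : B) := by
  induction n generalizing f with
  | zero =>
    obtain ⟨y, hy, h1⟩ := hf [] rfl
    refine ⟨y, ?_, ?_⟩
    · rw [pow_zero, pow_one]
      exact hy
    · rw [pow_zero, pow_one]
      exact h1
  | succ n ih =>
    have h1 : ∀ i, ∃ y ∈ P ^ p ^ n, (e : K) ^ p ^ n * π i f = (y : B) := fun i =>
      ih (π i f) fun l hl => hf (i :: l) (by rw [List.length_cons, hl])
    choose y hy h2 using h1
    refine ⟨∑ i, y i ^ p * ⟨w i, hw i⟩, ?_, ?_⟩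
    · refine Ideal.sum_mem _ fun i _ => Ideal.mul_mem_right _ _ ?_
      rw [pow_succ, pow_mul]
      exact Ideal.pow_mem_pow (hy i) p
    · push_cast
      conv_lhs => rw [← h.repr f]
      rw [Finset.mul_sum]
      refine Finset.sum_congr rfl fun i _ => ?_
      rw [← h2 i, mul_pow, ← pow_mul, ← pow_succ]
      ring

omit [CharP K p] in
/-- a power of `e` is in the ideal generated by the images of `d` -/
theorem exists_pow (hfg : B.FG) (h : IsPB p w π) (hw : ∀ i, w i ∈ B)
    (hE : ∀ b ∈ B, ∀ i, π i (e * b) ∈ B) (d : B) (hd : d ≠ 0) :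
    ∃ s : ℕ, e ^ s ∈ Ideal.span {x | ∃ l, x = lam h hE l d} := by
  by_contra hcon
  have hnot : e ∉ (Ideal.span {x | ∃ l, x = lam h hE l d}).radical := hcon
  rw [Ideal.radical_eq_sInf, Submodule.mem_sInf] at hnot
  push Not at hnot
  obtain ⟨P', ⟨hP1, hP2⟩, heP⟩ := hnot
  let P : Ideal B := P'
  have hP3 : P.IsPrime := hP2
  have hft : Algebra.FiniteType (ZMod p) B := B.fg_iff_finiteType.1 hfg
  have hnoeth : IsNoetherianRing B := Algebra.FiniteType.isNoetherianRing (ZMod p) B
  have key : ∀ n : ℕ, e ^ p ^ n * d ∈ P ^ p ^ n := by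
    intro n
    obtain ⟨y, hy, h1⟩ := expand (e := e) h hw P n (d : K) fun l _ =>
      ⟨lam h hE l d, hP1 (Ideal.subset_span ⟨l, rfl⟩), rfl⟩
    have h2 : e ^ p ^ n * d = y := Subtype.ext (by push_cast; exact h1)
    rw [h2]
    exact hy
  have hloc : algebraMap B (Localization.AtPrime P) d ∈
      ⨅ n : ℕ, IsLocalRing.maximalIdeal (Localization.AtPrime P) ^ n := by
    rw [Submodule.mem_iInf]
    intro n
    have h1 : algebraMap B (Localization.AtPrime P) (e ^ p ^ n * d) ∈
        IsLocalRing.maximalIdeal (Localization.AtPrime P) ^ p ^ n := by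
      have h2 := Ideal.mem_map_of_mem (algebraMap B (Localization.AtPrime P)) (key n)
      rw [Ideal.map_pow] at h2
      rwa [Localization.AtPrime.map_eq_maximalIdeal] at h2
    rw [map_mul] at h1
    have h3 : IsUnit (algebraMap B (Localization.AtPrime P) (e ^ p ^ n)) :=
      IsLocalization.map_units (Localization.AtPrime P)
        (⟨e ^ p ^ n, fun h4 => heP (hP2.mem_of_pow_mem _ h4)⟩ : P.primeCompl)
    rw [Ideal.unit_mul_mem_iff_mem _ h3] at h1
    have h5 : n ≤ p ^ n := (Nat.lt_pow_self (Fact.out : p.Prime).one_lt).le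
    exact Ideal.pow_le_pow_right h5 h1
  rw [Ideal.iInf_pow_eq_bot_of_isLocalRing _ (IsLocalRing.maximalIdeal.isMaximal _).ne_top,
    Ideal.mem_bot] at hloc
  apply hd
  have hinj : Function.Injective (algebraMap B (Localization.AtPrime P)) :=
    IsLocalization.injective _ P.primeCompl_le_nonZeroDivisors
  exact (map_eq_zero_iff _ hinj).1 hloc

/-- LEMMA CL -/
theorem cl_main (hfg : B.FG) (h : IsPB p w π) (hw : ∀ i, w i ∈ B) {i₀ : ι} (h0 : w i₀ = 1)
    (hE : ∀ b ∈ B, ∀ i, π i (e * b) ∈ B) (J : Ideal B) (d b : B) (hd : d ≠ 0)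
    (hb : ∀ n : ℕ, d * b ^ p ^ n ∈ FP J (p ^ n)) : e ^ 2 * b ∈ J := by
  obtain ⟨s, hs⟩ := exists_pow hfg h hw hE d hd
  have key : ∀ x ∈ Ideal.span {x | ∃ l, x = lam h hE l d}, ∀ n : ℕ, x * b ^ p ^ n ∈ FP J (p ^ n) := by
    intro x hx n
    induction hx using Submodule.span_induction with
    | mem x hx =>
      obtain ⟨l, rfl⟩ := hx
      rw [mul_comm, ← lam_mul h hE, ← pow_mul, ← pow_add, mul_comm]
      refine lam_FP h hE l J _ _ ?_
      rw [← pow_add]
      exact hb _
    | zero =>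
      rw [zero_mul]
      exact Ideal.zero_mem _
    | add x x' _ _ h1 h2 =>
      rw [add_mul]
      exact Ideal.add_mem _ h1 h2
    | smul c x _ h1 =>
      rw [smul_eq_mul, mul_assoc]
      exact Ideal.mul_mem_left _ _ h1
  have h5 : s ≤ p ^ s := (Nat.lt_pow_self (Fact.out : p.Prime).one_lt).le
  have h6 : (e * b) ^ p ^ s * 1 ∈ FP J (1 * p ^ (List.replicate s i₀).length) := by
    rw [mul_one, mul_pow, one_mul, List.length_replicate]
    have h7 : e ^ p ^ s = e ^ (p ^ s - s) * e ^ s := by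
      rw [← pow_add]
      congr 1
      omega
    rw [h7, mul_assoc]
    exact Ideal.mul_mem_left _ _ (key _ hs s)
  have h8 := lam_FP h hE (List.replicate s i₀) J 1 _ h6
  rw [FP_one] at h8
  have h9 : (e * b) ^ p ^ s * 1 = (e * b) ^ p ^ (List.replicate s i₀).length * 1 := by
    rw [List.length_replicate]
  rw [h9, lam_mul h hE] at h8
  have h10 : e * b * lam h hE (List.replicate s i₀) 1 = e ^ 2 * b := by
    apply Subtype.ext
    change (e : K) * b * (e * wd π (List.replicate s i₀) ((1 : B) : K)) = ((e ^ 2 * b : B) : K)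
    push_cast
    rw [wd_one h h0]
    ring
  rwa [h10] at h8

end main

end Pool.Agent.SuCO
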