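import Pool.Agent.Lib.MP_305fdd_al.Su.TR.Defs

/-!
# MP_305fdd_al, surface groups, block CO: completions

Isomorphisms of completions from isomorphisms of the quotients by the powers; the ideals of a
completion are closed.
-/

set_option autoImplicit false

namespace Pool.Agent.SuCO

open Pool.Agent.SuTR

section

variable {B R B' R' S : Type} [CommRing B] [CommRing R] [CommRing B'] [CommRing R'] [CommRing S]
  {φ : B →+* R} {J : Ideal B} {ψ : B' →+* R'} {J' : Ideal B'}

theorem mem_pow_equiv (φ : B →+* R) (J : Ideal B) (e : R ≃+* S) (n : ℕ) (x : S) :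
    x ∈ (J.map ((e : R →+* S).comp φ)) ^ n ↔ e.symm x ∈ (J.map φ) ^ n := by
  rw [← Ideal.map_map, ← Ideal.map_pow, Ideal.mem_map_iff_of_surjective (e : R →+* S) e.surjective]
  constructor
  · rintro ⟨y, hy, rfl⟩
    change e.symm (e y) ∈ _
    rwa [e.symm_apply_apply]
  · intro h
    exact ⟨e.symm x, h, e.apply_symm_apply x⟩

/-- a ring isomorphic to a completion is a completion -/
theorem comp_equiv (h : Comp φ J) (e : R ≃+* S) : Comp ((e : R →+* S).comp φ) J where
  noeth := by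
    have := h.noeth
    exact isNoetherianRing_of_ringEquiv R e
  dense n r := by
    obtain ⟨b, hb⟩ := h.dense n (e.symm r)
    refine ⟨b, (mem_pow_equiv φ J e n _).2 ?_⟩
    rw [map_sub]
    change e.symm r - e.symm (e (φ b)) ∈ _
    rwa [e.symm_apply_apply]
  top n b hb := by
    refine h.top n b ?_
    have h1 := (mem_pow_equiv φ J e n _).1 hb
    change e.symm (e (φ b)) ∈ _ at h1
    rwa [e.symm_apply_apply] at h1
  sep r hr := by
    have h1 := h.sep (e.symm r) fun n => (mem_pow_equiv φ J e n _).1 (hr n)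
    exact (map_eq_zero_iff e.symm e.symm.injective).1 h1
  cpl s hs := by
    obtain ⟨r, hr⟩ := h.cpl s hs
    refine ⟨e r, fun n => (mem_pow_equiv φ J e n _).2 ?_⟩
    change e.symm (e r - e (φ (s n))) ∈ _
    rw [map_sub, e.symm_apply_apply, e.symm_apply_apply]
    exact hr n
  flat n b r hr := by
    have h1 : ∑ i, e.symm (r i) * φ (b i) = 0 := by
      apply e.injective
      rw [map_sum, map_zero, ← hr]
      refine Finset.sum_congr rfl fun i _ => ?_
      rw [map_mul, e.apply_symm_apply]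
      rfl
    obtain ⟨m, s, c, h2, h3⟩ := h.flat n b _ h1
    refine ⟨m, fun j => e (s j), c, fun i => ?_, h3⟩
    have h4 := congrArg e (h2 i)
    rw [e.apply_symm_apply, map_sum] at h4
    rw [h4]
    refine Finset.sum_congr rfl fun j _ => ?_
    rw [map_mul]
    rfl

theorem _root_.Pool.Agent.SuTR.Comp.unit (h : Comp φ J) {x : R} (hx : x ∈ J.map φ) :
    ∃ y, (1 - x) * y = 1 := by
  choose b hb using fun n => h.dense n x
  let s : ℕ → B := fun n => ∑ i ∈ Finset.range n, b n ^ i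
  have h1 : ∀ n, (∑ i ∈ Finset.range n, x ^ i) - φ (s n) ∈ (J.map φ) ^ n := by
    intro n
    change _ - φ (∑ i ∈ Finset.range n, b n ^ i) ∈ _
    rw [map_sum, ← Finset.sum_sub_distrib]
    refine Ideal.sum_mem _ fun i _ => ?_
    rw [map_pow]
    exact Ideal.mem_of_dvd _ (sub_dvd_pow_sub_pow x (φ (b n)) i) (hb n)
  have h2 : ∀ n, s (n + 1) - s n ∈ J ^ n := by
    intro n
    refine h.top n _ ?_
    have h3 := Ideal.pow_le_pow_right (Nat.le_succ n) (h1 (n + 1))
    have h4 : x ^ n ∈ (J.map φ) ^ n := Ideal.pow_mem_pow hx n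
    have h5 : φ (s (n + 1) - s n) = x ^ n - ((∑ i ∈ Finset.range (n + 1), x ^ i) - φ (s (n + 1))) +
        ((∑ i ∈ Finset.range n, x ^ i) - φ (s n)) := by
      rw [Finset.sum_range_succ, map_sub]
      ring
    rw [h5]
    exact Ideal.add_mem _ (Ideal.sub_mem _ h4 h3) (h1 n)
  obtain ⟨y, hy⟩ := h.cpl s h2
  refine ⟨y, ?_⟩
  rw [← sub_eq_zero]
  refine h.sep _ fun n => ?_
  have h3 : (1 - x) * y - 1 = (1 - x) * (y - φ (s n)) -
      (1 - x) * ((∑ i ∈ Finset.range n, x ^ i) - φ (s n)) - x ^ n := by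
    have h4 := mul_neg_geom_sum x n
    linear_combination h4
  rw [h3]
  exact Ideal.sub_mem _ (Ideal.sub_mem _ (Ideal.mul_mem_left _ _ (hy n))
    (Ideal.mul_mem_left _ _ (h1 n))) (Ideal.pow_mem_pow hx n)

theorem _root_.Pool.Agent.SuTR.Comp.le_jac (h : Comp φ J) :
    J.map φ ≤ (⊥ : Ideal R).jacobson := by
  intro x hx
  rw [Ideal.mem_jacobson_bot]
  intro y
  obtain ⟨z, hz⟩ := h.unit (x := -(x * y)) (neg_mem (Ideal.mul_mem_right _ _ hx))
  refine IsUnit.of_mul_eq_one z ?_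
  linear_combination hz

/-- the ideals of a completion are closed -/
theorem _root_.Pool.Agent.SuTR.Comp.closed (h : Comp φ J) (I : Ideal R) {x : R}
    (hx : ∀ n, x ∈ I ⊔ (J.map φ) ^ n) : x ∈ I := by
  have := h.noeth
  have h1 := Ideal.iInf_pow_smul_eq_bot_of_le_jacobson (M := R ⧸ I) (J.map φ) h.le_jac
  have h2 : Ideal.Quotient.mk I x ∈ (⨅ i : ℕ, (J.map φ) ^ i • ⊤ : Submodule R (R ⧸ I)) := by
    rw [Submodule.mem_iInf]
    intro n
    obtain ⟨a, ha, b, hb, hab⟩ := Submodule.mem_sup.1 (hx n)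
    have h3 : Ideal.Quotient.mk I x = b • (1 : R ⧸ I) := by
      rw [← hab, map_add, Ideal.Quotient.eq_zero_iff_mem.2 ha, zero_add, Algebra.smul_def, mul_one]
      rfl
    rw [h3]
    exact Submodule.smul_mem_smul hb trivial
  rw [h1, Submodule.mem_bot] at h2
  exact Ideal.Quotient.eq_zero_iff_mem.1 h2

theorem _root_.Pool.Agent.SuTR.Comp.le_of (h : Comp φ J) {I I' : Ideal R}
    (hI : ∀ n, I ≤ I' ⊔ (J.map φ) ^ n) : I ≤ I' := fun _ hx => h.closed I' fun n => hI n hx

/-- isomorphism of completions -/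
theorem exists_iso (h : Comp φ J) (h' : Comp ψ J') (f : ∀ n : ℕ, B' →+* B ⧸ J ^ n)
    (hs : ∀ n, Function.Surjective (f n)) (hk : ∀ n y, f n y = 0 ↔ y ∈ J' ^ n)
    (hc : ∀ n y b, f (n + 1) y = Ideal.Quotient.mk (J ^ (n + 1)) b →
      f n y = Ideal.Quotient.mk (J ^ n) b) :
    ∃ e : R' ≃+* R, ∀ n y b, f n y = Ideal.Quotient.mk (J ^ n) b →
      e (ψ y) - φ b ∈ (J.map φ) ^ n := by
  let E : R' → R → Prop := fun r' r => ∀ n : ℕ, ∃ y b, r' - ψ y ∈ (J'.map ψ) ^ n ∧
    f n y = Ideal.Quotient.mk (J ^ n) b ∧ r - φ b ∈ (J.map φ) ^ n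
  have map1 : ∀ n (b : B), b ∈ J ^ n → φ b ∈ (J.map φ) ^ n := fun n b hb => by
    rw [← Ideal.map_pow]
    exact Ideal.mem_map_of_mem φ hb
  have map2 : ∀ n (b : B'), b ∈ J' ^ n → ψ b ∈ (J'.map ψ) ^ n := fun n b hb => by
    rw [← Ideal.map_pow]
    exact Ideal.mem_map_of_mem ψ hb
  have hadd : ∀ a' a b' b, E a' a → E b' b → E (a' + b') (a + b) := by
    intro a' a b' b h1 h2 n
    obtain ⟨y1, b1, e1, e2, e3⟩ := h1 n
    obtain ⟨y2, b2, e4, e5, e6⟩ := h2 n
    refine ⟨y1 + y2, b1 + b2, ?_, ?_, ?_⟩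
    · rw [map_add, add_sub_add_comm]
      exact Ideal.add_mem _ e1 e4
    · rw [map_add, e2, e5, map_add]
    · rw [map_add, add_sub_add_comm]
      exact Ideal.add_mem _ e3 e6
  have hmul : ∀ a' a b' b, E a' a → E b' b → E (a' * b') (a * b) := by
    intro a' a b' b h1 h2 n
    obtain ⟨y1, b1, e1, e2, e3⟩ := h1 n
    obtain ⟨y2, b2, e4, e5, e6⟩ := h2 n
    refine ⟨y1 * y2, b1 * b2, ?_, ?_, ?_⟩
    · have e7 : a' * b' - ψ (y1 * y2) = (a' - ψ y1) * b' + ψ y1 * (b' - ψ y2) := by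
        rw [map_mul]
        ring
      rw [e7]
      exact Ideal.add_mem _ (Ideal.mul_mem_right _ _ e1) (Ideal.mul_mem_left _ _ e4)
    · rw [map_mul, e2, e5, map_mul]
    · have e7 : a * b - φ (b1 * b2) = (a - φ b1) * b + φ b1 * (b - φ b2) := by
        rw [map_mul]
        ring
      rw [e7]
      exact Ideal.add_mem _ (Ideal.mul_mem_right _ _ e3) (Ideal.mul_mem_left _ _ e6)
  have hneg : ∀ a' a, E a' a → E (-a') (-a) := by
    intro a' a h1 n
    obtain ⟨y1, b1, e1, e2, e3⟩ := h1 n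
    refine ⟨-y1, -b1, ?_, ?_, ?_⟩
    · rw [map_neg, ← neg_sub', neg_mem_iff]
      exact e1
    · rw [map_neg, e2, map_neg]
    · rw [map_neg, ← neg_sub', neg_mem_iff]
      exact e3
  have hone : E 1 1 := fun n => ⟨1, 1, by rw [map_one, sub_self]; exact Ideal.zero_mem _,
    by rw [map_one, map_one], by rw [map_one, sub_self]; exact Ideal.zero_mem _⟩
  have hE0 : ∀ a, E 0 a → a = 0 := by
    intro a h1
    refine h.sep a fun n => ?_
    obtain ⟨y1, b1, e1, e2, e3⟩ := h1 n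
    have e4 : y1 ∈ J' ^ n := by
      refine h'.top n y1 ?_
      rw [zero_sub, neg_mem_iff] at e1
      exact e1
    have e5 := (hk n y1).2 e4
    rw [e2, Ideal.Quotient.eq_zero_iff_mem] at e5
    have e6 := Ideal.add_mem _ e3 (map1 n _ e5)
    rwa [sub_add_cancel] at e6
  have hE0' : ∀ a', E a' 0 → a' = 0 := by
    intro a h1
    refine h'.sep a fun n => ?_
    obtain ⟨y1, b1, e1, e2, e3⟩ := h1 n
    have e4 : b1 ∈ J ^ n := by
      refine h.top n b1 ?_
      rw [zero_sub, neg_mem_iff] at e3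
      exact e3
    rw [Ideal.Quotient.eq_zero_iff_mem.2 e4] at e2
    have e6 := Ideal.add_mem _ e1 (map2 n _ ((hk n y1).1 e2))
    rwa [sub_add_cancel] at e6
  have hex : ∀ a', ∃ a, E a' a := by
    intro a'
    choose y hy using fun n => h'.dense n a'
    choose b hb using fun n => Ideal.Quotient.mk_surjective (I := J ^ n) (f n (y n))
    have h1 : ∀ n, b (n + 1) - b n ∈ J ^ n := by
      intro n
      rw [← Ideal.Quotient.eq, hb n]
      have h2 := hc n (y (n + 1)) (b (n + 1)) (hb (n + 1)).symm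
      rw [← h2, ← sub_eq_zero, ← map_sub, hk]
      refine h'.top n _ ?_
      have h3 : ψ (y (n + 1) - y n) = (a' - ψ (y n)) - (a' - ψ (y (n + 1))) := by
        rw [map_sub]
        ring
      rw [h3]
      exact Ideal.sub_mem _ (hy n) (Ideal.pow_le_pow_right (Nat.le_succ n) (hy (n + 1)))
    obtain ⟨a, ha⟩ := h.cpl b h1
    exact ⟨a, fun n => ⟨y n, b n, hy n, (hb n).symm, ha n⟩⟩
  have hex' : ∀ a, ∃ a', E a' a := by
    intro a
    choose b hb using fun n => h.dense n a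
    choose y hy using fun n => hs n (Ideal.Quotient.mk (J ^ n) (b n))
    have h1 : ∀ n, y (n + 1) - y n ∈ J' ^ n := by
      intro n
      rw [← hk, map_sub, sub_eq_zero, hy n, hc n _ _ (hy (n + 1)), Ideal.Quotient.eq]
      refine h.top n _ ?_
      have h3 : φ (b (n + 1) - b n) = (a - φ (b n)) - (a - φ (b (n + 1))) := by
        rw [map_sub]
        ring
      rw [h3]
      exact Ideal.sub_mem _ (hb n) (Ideal.pow_le_pow_right (Nat.le_succ n) (hb (n + 1)))
    obtain ⟨a', ha'⟩ := h'.cpl y h1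
    exact ⟨a', fun n => ⟨y n, b n, ha' n, hy n, hb n⟩⟩
  have huniq : ∀ a' a b, E a' a → E a' b → a = b := by
    intro a' a b h1 h2
    rw [← sub_eq_zero]
    refine hE0 _ ?_
    have h3 := hadd _ _ _ _ h1 (hneg _ _ h2)
    rwa [add_neg_cancel, ← sub_eq_add_neg] at h3
  choose F hF using hex
  let F' : R' →+* R :=
    { toFun := F
      map_one' := huniq 1 _ _ (hF 1) hone
      map_mul' := fun a b => huniq _ _ _ (hF (a * b)) (hmul _ _ _ _ (hF a) (hF b))
      map_zero' := hE0 _ (hF 0)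
      map_add' := fun a b => huniq _ _ _ (hF (a + b)) (hadd _ _ _ _ (hF a) (hF b)) }
  have hbij : Function.Bijective F' := by
    constructor
    · rw [injective_iff_map_eq_zero]
      intro a ha
      refine hE0' a ?_
      have h1 := hF a
      rwa [show F a = 0 from ha] at h1
    · intro a
      obtain ⟨a', ha'⟩ := hex' a
      exact ⟨a', huniq _ _ _ (hF a') ha'⟩
  refine ⟨RingEquiv.ofBijective F' hbij, fun n y b hyb => ?_⟩
  change F (ψ y) - φ b ∈ _
  obtain ⟨y1, b1, e1, e2, e3⟩ := hF (ψ y) n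
  have e4 : y - y1 ∈ J' ^ n := by
    refine h'.top n _ ?_
    rwa [map_sub]
  rw [← hk, map_sub, sub_eq_zero, hyb, e2, Ideal.Quotient.eq] at e4
  have e5 := map1 n _ e4
  have e6 : F (ψ y) - φ b = (F (ψ y) - φ b1) - φ (b - b1) := by
    rw [map_sub]
    ring
  rw [e6]
  exact Ideal.sub_mem _ e3 e5

end

end Pool.Agent.SuCO
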