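import Pool.Agent.Lib.MP_305fdd_al.Su.CO.Lat
import Pool.Agent.Lib.MP_305fdd_al.Fr.D.Val

/-!
# MP_305fdd_al, surface groups, block CO: ideals of the trace ring in the ring of the entries

`int_pow`: if `I` is an ideal of the trace ring `B` and `b ∈ B` is in the ideal generated by `I` in the
ring `O` of the entries of `ρ`, then `b ^ (n + k) ∈ I ^ k` for some `n` and all `k`.
-/

set_option autoImplicit false

namespace Pool.Agent.SuCO

open Matrix Pool.Agent.FrN

/-- conjugation by `P` with inverse `Q` -/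
def cjM {R : Type} [CommRing R] (P Q : Matrix (Fin 2) (Fin 2) R) (h : P * Q = 1) :
    SpecialLinearGroup (Fin 2) R →* SpecialLinearGroup (Fin 2) R where
  toFun g := ⟨P * g.1 * Q, by
    rw [Matrix.det_mul, Matrix.det_mul, g.2, mul_one, ← Matrix.det_mul, h, Matrix.det_one]⟩
  map_one' := by
    apply Subtype.ext
    change P * (1 : Matrix (Fin 2) (Fin 2) R) * Q = 1
    rw [mul_one, h]
  map_mul' x y := by
    apply Subtype.ext
    change P * (x.1 * y.1) * Q = P * x.1 * Q * (P * y.1 * Q)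
    have h' : Q * P = 1 := mul_eq_one_comm.1 h
    calc P * (x.1 * y.1) * Q = P * x.1 * 1 * y.1 * Q := by
          rw [mul_one, mul_assoc P x.1 y.1]
      _ = P * x.1 * (Q * P) * y.1 * Q := by rw [h']
      _ = P * x.1 * Q * (P * y.1 * Q) := by
          simp only [mul_assoc]

theorem cjM_apply {R : Type} [CommRing R] (P Q : Matrix (Fin 2) (Fin 2) R) (h : P * Q = 1)
    (g : SpecialLinearGroup (Fin 2) R) : (cjM P Q h g).1 = P * g.1 * Q := rfl

section

variable {p : ℕ} {Γ K F : Type} [Group Γ] [Field K] [Field F] [Algebra (ZMod p) K]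
  [Algebra (ZMod p) F] [Algebra K F] {T : Γ → K}

/-- `r` is a specialisation of `ρ` -/
def Sp (p : ℕ) {Γ F : Type} [Group Γ] [Field F] [Algebra (ZMod p) F]
    (ρ : Γ →* SpecialLinearGroup (Fin 2) F) {R : Type} [CommRing R] [Algebra (ZMod p) R]
    (r : Γ →* SpecialLinearGroup (Fin 2) R) : Prop :=
  ∃ φ : OO p ρ →ₐ[ZMod p] R, ∀ g i j, φ ⟨(ρ g).1 i j, mem_OO ρ g i j⟩ = (r g).1 i j

/-- `ρ` is a representation over `F` with trace `T` (values in `K`, the field of fractions of the ring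
`BB p T` of the traces); the conjugates of `ρ` are specialisations of `ρ`. -/
structure TR (p : ℕ) {Γ K F : Type} [Group Γ] [Field K] [Field F] [Algebra (ZMod p) K]
    [Algebra (ZMod p) F] [Algebra K F] (T : Γ → K)
    (ρ : Γ →* SpecialLinearGroup (Fin 2) F) : Prop where
  fg : Group.FG Γ
  tr : ∀ g, (ρ g).1.trace = algebraMap K F (T g)
  frac : Frc (BB p T)
  cj : ∀ (P Q : Matrix (Fin 2) (Fin 2) F) (h : P * Q = 1), Sp p ρ ((cjM P Q h).comp ρ)

variable {ρ : Γ →* SpecialLinearGroup (Fin 2) F}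

theorem alg_comp : (algebraMap K F).comp (algebraMap (ZMod p) K) = algebraMap (ZMod p) F :=
  Subsingleton.elim _ _

theorem TR.mem (H : TR p T ρ) {b : K} (hb : b ∈ BB p T) : algebraMap K F b ∈ OO p ρ := by
  induction hb using Algebra.adjoin_induction with
  | mem x hx =>
    obtain ⟨g, rfl⟩ := hx
    rw [← H.tr, trace_fin_two]
    exact add_mem (mem_OO ρ g 0 0) (mem_OO ρ g 1 1)
  | algebraMap r =>
    have h1 : algebraMap K F (algebraMap (ZMod p) K r) = algebraMap (ZMod p) F r :=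
      congrArg (fun φ : ZMod p →+* F => φ r) alg_comp
    rw [h1]
    exact (OO p ρ).algebraMap_mem r
  | add x y _ _ h1 h2 =>
    rw [map_add]
    exact add_mem h1 h2
  | mul x y _ _ h1 h2 =>
    rw [map_mul]
    exact mul_mem h1 h2

/-- the inclusion of the ring of the traces in the ring of the entries -/
noncomputable def TR.inc (H : TR p T ρ) : BB p T →ₐ[ZMod p] OO p ρ where
  toFun y := ⟨algebraMap K F y, H.mem y.2⟩
  map_one' := Subtype.ext (map_one _)
  map_mul' x y := Subtype.ext (map_mul _ _ _)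
  map_zero' := Subtype.ext (map_zero _)
  map_add' x y := Subtype.ext (map_add _ _ _)
  commutes' r := Subtype.ext (by
    exact congrArg (fun φ : ZMod p →+* F => φ r) alg_comp)

theorem TR.inc_apply (H : TR p T ρ) (y : BB p T) : ((H.inc y : OO p ρ) : F) = algebraMap K F y := rfl

theorem TR.inc_T (H : TR p T ρ) (g : Γ) :
    H.inc (bT p T g) = ⟨(ρ g).1 0 0, mem_OO ρ g 0 0⟩ + ⟨(ρ g).1 1 1, mem_OO ρ g 1 1⟩ := by
  apply Subtype.ext
  change algebraMap K F (T g) = (ρ g).1 0 0 + (ρ g).1 1 1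
  rw [← H.tr, Matrix.trace_fin_two]

/-- extension of a valuation ring -/
theorem exists_val_ext (V : ValuationSubring K) :
    ∃ W : ValuationSubring F, ∀ x : K, algebraMap K F x ∈ W ↔ x ∈ V := by
  let R : Subring F := V.toSubring.map (algebraMap K F)
  let e : V.toSubring ≃+* R := V.toSubring.equivMapOfInjective _ (algebraMap K F).injective
  let P : Ideal R := (IsLocalRing.maximalIdeal V).comap (e.symm : R →+* V.toSubring)
  have hP : P.IsPrime := Ideal.comap_isPrime _ _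
  obtain ⟨W, hW1, hW2⟩ := FrD.exists_dom R P
  have h1 : ∀ x ∈ V, algebraMap K F x ∈ W := fun x hx => hW1 ⟨x, hx, rfl⟩
  refine ⟨W, fun x => ⟨fun hx => ?_, h1 x⟩⟩
  by_contra hxV
  have hx0 : x ≠ 0 := fun h0 => hxV (h0 ▸ V.zero_mem)
  have hinv : x⁻¹ ∈ V := (V.mem_or_inv_mem x).resolve_left hxV
  have hmax : (⟨x⁻¹, hinv⟩ : V) ∈ IsLocalRing.maximalIdeal V := by
    rw [IsLocalRing.mem_maximalIdeal, mem_nonunits_iff]
    intro hu
    obtain ⟨u, hu⟩ := hu
    have h2 : ((u : V) : K) * ((u⁻¹ : Vˣ) : V) = 1 := by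
      have := congrArg (fun z : V => (z : K)) (Units.mul_inv u)
      exact this
    rw [hu] at h2
    have h3 : (((u⁻¹ : Vˣ) : V) : K) = x := by
      have h4 : x * (x⁻¹ * (((u⁻¹ : Vˣ) : V) : K)) = x * 1 := congrArg (x * ·) h2
      rwa [← mul_assoc, mul_inv_cancel₀ hx0, one_mul, mul_one] at h4
    exact hxV (h3 ▸ ((u⁻¹ : Vˣ) : V).2)
  have hmem : (⟨algebraMap K F x⁻¹, ⟨x⁻¹, hinv, rfl⟩⟩ : R) ∈ P := by
    change e.symm _ ∈ IsLocalRing.maximalIdeal V
    have h5 : e.symm (⟨algebraMap K F x⁻¹, ⟨x⁻¹, hinv, rfl⟩⟩ : R) = ⟨x⁻¹, hinv⟩ := by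
      rw [RingEquiv.symm_apply_eq]
      rfl
    rw [h5]
    exact hmax
  have h6 := (hW2 _).2 hmem
  have h7 : (⟨algebraMap K F x⁻¹, h1 _ hinv⟩ : W) ∈ IsLocalRing.maximalIdeal W :=
    (ValuationSubring.coe_mem_nonunits_iff (a := (⟨algebraMap K F x⁻¹, h1 _ hinv⟩ : W))).1 h6
  rw [IsLocalRing.mem_maximalIdeal, mem_nonunits_iff] at h7
  apply h7
  refine IsUnit.of_mul_eq_one ⟨algebraMap K F x, hx⟩ ?_
  apply Subtype.ext
  change algebraMap K F x⁻¹ * algebraMap K F x = 1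
  rw [← map_mul, inv_mul_cancel₀ hx0, map_one]

/-- in a valuation ring an element of an ideal is a multiple of one of the generators -/
theorem mem_map_val {B W : Type} [CommRing B] [CommRing W] [IsDomain W] [ValuationRing W] (f : B →+* W)
    (I : Ideal B) {w : W} (hw : w ∈ I.map f) : ∃ i ∈ I, ∃ v : W, w = v * f i := by
  induction hw using Submodule.span_induction with
  | mem x hx =>
    obtain ⟨i, hi, rfl⟩ := hx
    exact ⟨i, hi, 1, (one_mul _).symm⟩
  | zero => exact ⟨0, I.zero_mem, 0, by simp⟩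
  | add x y _ _ hx hy =>
    obtain ⟨i, hi, v, rfl⟩ := hx
    obtain ⟨i', hi', v', rfl⟩ := hy
    rcases ValuationRing.dvd_total (f i) (f i') with ⟨c, hc⟩ | ⟨c, hc⟩
    · exact ⟨i, hi, v + v' * c, by rw [hc]; ring⟩
    · exact ⟨i', hi', v * c + v', by rw [hc]; ring⟩
  | smul c x _ hx =>
    obtain ⟨i, hi, v, rfl⟩ := hx
    exact ⟨i, hi, c * v, by rw [smul_eq_mul, mul_assoc]⟩

/-- LEMMA INT, for one valuation ring -/
theorem TR.int_val (H : TR p T ρ) (V : ValuationSubring K) (hV : ∀ b ∈ BB p T, b ∈ V)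
    (I : Ideal (BB p T)) (b : BB p T) (hb : H.inc b ∈ I.map (H.inc : BB p T →+* OO p ρ)) :
    ∃ i ∈ I, ∃ v ∈ V, (b : K) = v * i := by
  have := H.fg
  obtain ⟨W, hW⟩ := exists_val_ext (F := F) V
  obtain ⟨P, Q, hPQ, hent⟩ := exists_conj W ρ fun g => by
    rw [H.tr, hW]
    exact hV _ (Algebra.subset_adjoin ⟨g, rfl⟩)
  obtain ⟨φ, hφ⟩ := H.cj P Q hPQ
  have hφW : ∀ x : OO p ρ, φ x ∈ W := by
    rintro ⟨x, hx⟩
    induction hx using Algebra.adjoin_induction with
    | mem x hx =>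
      obtain ⟨g, i, j, rfl⟩ := hx
      rw [hφ]
      exact hent g i j
    | algebraMap r =>
      have h1 : φ ⟨algebraMap (ZMod p) F r, (OO p ρ).algebraMap_mem r⟩ = algebraMap (ZMod p) F r :=
        φ.commutes r
      rw [h1, ← show algebraMap K F (algebraMap (ZMod p) K r) = algebraMap (ZMod p) F r from
        congrArg (fun φ : ZMod p →+* F => φ r) alg_comp, hW]
      exact hV _ ((BB p T).algebraMap_mem r)
    | add x y hx hy h1 h2 =>
      have h3 : (⟨x + y, add_mem hx hy⟩ : OO p ρ) = ⟨x, hx⟩ + ⟨y, hy⟩ := rfl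
      rw [h3, map_add]
      exact W.add_mem _ _ h1 h2
    | mul x y hx hy h1 h2 =>
      have h3 : (⟨x * y, mul_mem hx hy⟩ : OO p ρ) = ⟨x, hx⟩ * ⟨y, hy⟩ := rfl
      rw [h3, map_mul]
      exact W.mul_mem _ _ h1 h2
  let ψ : OO p ρ →+* W := (φ : OO p ρ →+* F).codRestrict W.toSubring hφW
  have hψ : ∀ x : BB p T, ((ψ (H.inc x) : W) : F) = algebraMap K F x := by
    rintro ⟨x, hx⟩
    change φ (H.inc ⟨x, hx⟩) = algebraMap K F x
    induction hx using Algebra.adjoin_induction with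
    | mem x hx =>
      obtain ⟨g, rfl⟩ := hx
      change φ (H.inc (bT p T g)) = algebraMap K F (T g)
      rw [H.inc_T, map_add, hφ, hφ, ← H.tr, ← trace_fin_two]
      change (P * (ρ g).1 * Q).trace = _
      rw [Matrix.trace_mul_cycle, mul_eq_one_comm.1 hPQ, one_mul]
    | algebraMap r =>
      have h1 : φ (H.inc (algebraMap (ZMod p) (BB p T) r)) = algebraMap (ZMod p) F r := by
        rw [AlgHom.commutes, AlgHom.commutes]
      exact h1.trans (congrArg (fun φ : ZMod p →+* F => φ r) alg_comp).symm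
    | add x y hx hy h1 h2 =>
      have h3 : (⟨x + y, add_mem hx hy⟩ : BB p T) = ⟨x, hx⟩ + ⟨y, hy⟩ := rfl
      rw [h3, map_add, map_add, h1, h2, map_add]
    | mul x y hx hy h1 h2 =>
      have h3 : (⟨x * y, mul_mem hx hy⟩ : BB p T) = ⟨x, hx⟩ * ⟨y, hy⟩ := rfl
      rw [h3, map_mul, map_mul, h1, h2, map_mul]
  have h1 : ψ (H.inc b) ∈ I.map (ψ.comp (H.inc : BB p T →+* OO p ρ)) := by
    rw [← Ideal.map_map]
    exact Ideal.mem_map_of_mem ψ hb
  obtain ⟨i, hi, v, hv⟩ := mem_map_val _ I h1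
  refine ⟨i, hi, ?_⟩
  have h2 : algebraMap K F b = (v : F) * algebraMap K F i := by
    have := congrArg (fun z : W => (z : F)) hv
    change ((ψ (H.inc b) : W) : F) = (v : F) * ((ψ (H.inc i) : W) : F) at this
    rwa [hψ, hψ] at this
  by_cases hi0 : (i : K) = 0
  · rw [hi0, map_zero, mul_zero, map_eq_zero] at h2
    exact ⟨0, V.zero_mem, by rw [h2, zero_mul]⟩
  refine ⟨(b : K) / i, ?_, (div_mul_cancel₀ _ hi0).symm⟩
  rw [← hW, map_div₀, h2, mul_div_cancel_right₀ _ ((map_ne_zero _).2 hi0)]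
  exact v.2

end

end Pool.Agent.SuCO
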