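import Pool.Agent.Lib.MP_305fdd_al.Fr.N.Defs

/-!
# MP_305fdd_al, surface groups, block CO: representations with traces in a valuation ring

`exists_conj`: a representation of a finitely generated group in `SL₂(F)` all traces of which are in the
valuation ring `V` of `F` is conjugate to a representation with entries in `V`.
-/

set_option autoImplicit false

namespace Pool.Agent.SuCO

open Matrix

section tri

variable {F : Type} [Field F] (V : ValuationSubring F)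

/-- one column -/
theorem one_col (s : Finset (Fin 2 → F)) (i : Fin 2) (hs : s.Nonempty) :
    ∃ k ∈ s, ∀ w ∈ s, ∃ a : V, w i = (a : F) * k i := by
  obtain ⟨k, hk, hmax⟩ := s.exists_max_image (fun w => V.valuation (w i)) hs
  refine ⟨k, hk, fun w hw => ?_⟩
  obtain ⟨a, ha⟩ := (V.valuation_le_iff (w i) (k i)).1 (hmax w hw)
  exact ⟨a, ha.symm⟩

/-- triangular form of a finitely generated lattice -/
theorem tri (s : Finset (Fin 2 → F)) :
    ∃ r₁ r₂ : Fin 2 → F, r₁ ∈ Submodule.span V (s : Set (Fin 2 → F)) ∧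
      r₂ ∈ Submodule.span V (s : Set (Fin 2 → F)) ∧ r₂ 0 = 0 ∧
      ∀ w ∈ s, ∃ a b : V, w = (a : F) • r₁ + (b : F) • r₂ := by
  classical
  rcases s.eq_empty_or_nonempty with rfl | hs
  · exact ⟨0, 0, Submodule.zero_mem _, Submodule.zero_mem _, rfl, by simp⟩
  obtain ⟨k, hk, hk'⟩ := one_col V s 0 hs
  choose! a ha using hk'
  let s' : Finset (Fin 2 → F) := s.image fun w => w - ((a w : V) : F) • k
  obtain ⟨l, hl, hl'⟩ := one_col V s' 1 (hs.image _)
  have h0 : ∀ w ∈ s', w 0 = 0 := by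
    intro w hw
    obtain ⟨u, hu, rfl⟩ := Finset.mem_image.1 hw
    change u 0 - ((a u : V) : F) * k 0 = 0
    rw [ha u hu, sub_self]
  have hspan : ∀ w ∈ s', w ∈ Submodule.span V (s : Set (Fin 2 → F)) := by
    intro w hw
    obtain ⟨u, hu, rfl⟩ := Finset.mem_image.1 hw
    exact Submodule.sub_mem _ (Submodule.subset_span hu)
      (Submodule.smul_mem _ (a u) (Submodule.subset_span hk))
  refine ⟨k, l, Submodule.subset_span hk, hspan l hl, h0 l hl, fun w hw => ?_⟩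
  have hw' : w - ((a w : V) : F) • k ∈ s' := Finset.mem_image.2 ⟨w, hw, rfl⟩
  obtain ⟨b, hb⟩ := hl' _ hw'
  refine ⟨a w, b, ?_⟩
  have h1 : w - ((a w : V) : F) • k = (b : F) • l := by
    funext i
    fin_cases i
    · change (w - ((a w : V) : F) • k) 0 = (b : F) * l 0
      rw [h0 _ hw', h0 l hl, mul_zero]
    · exact hb
  rw [← h1]
  abel

end tri

section ord

variable {F : Type} [Field F] (V : ValuationSubring F)

/-- the products of elements of the list with increasing indices -/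
def ord : List (SpecialLinearGroup (Fin 2) F) → Submodule V (Matrix (Fin 2) (Fin 2) F)
  | [] => Submodule.span V {1}
  | x :: l => ord l ⊔ (ord l).map (LinearMap.mulRight V x.1)

theorem one_mem_ord : ∀ l : List (SpecialLinearGroup (Fin 2) F), (1 : Matrix (Fin 2) (Fin 2) F) ∈ ord V l
  | [] => Submodule.subset_span rfl
  | _ :: l => Submodule.mem_sup_left (one_mem_ord l)

theorem fg_ord : ∀ l : List (SpecialLinearGroup (Fin 2) F), (ord V l).FG
  | [] => Submodule.fg_span_singleton _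
  | _ :: l => (fg_ord l).sup ((fg_ord l).map _)

theorem ch_sq (x : SpecialLinearGroup (Fin 2) F) : x.1 * x.1 = x.1.trace • x.1 - 1 := by
  have h := x.2
  rw [det_fin_two] at h
  ext i j
  fin_cases i <;> fin_cases j <;>
    simp [Matrix.mul_apply, Fin.sum_univ_two, Matrix.trace_fin_two] <;>
    first | linear_combination (-1 : F) * h | ring1

theorem ch_two (x y : Matrix (Fin 2) (Fin 2) F) : x * y = -(y * x) + x.trace • y + y.trace • x +
    ((y * x).trace - x.trace * y.trace) • (1 : Matrix (Fin 2) (Fin 2) F) := by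
  ext i j
  fin_cases i <;> fin_cases j <;>
    simp [Matrix.mul_apply, Fin.sum_univ_two, Matrix.trace_fin_two] <;> ring

theorem mul_mem_ord : ∀ l : List (SpecialLinearGroup (Fin 2) F),
    (∀ x ∈ l, x.1.trace ∈ V) → (∀ x ∈ l, ∀ y ∈ l, (x.1 * y.1).trace ∈ V) →
    ∀ x ∈ l, ∀ m ∈ ord V l, m * x.1 ∈ ord V l
  | [], _, _ => by simp
  | z :: l, h1, h2 => by
    have ih := mul_mem_ord l (fun x hx => h1 x (List.mem_cons_of_mem _ hx))
      (fun x hx y hy => h2 x (List.mem_cons_of_mem _ hx) y (List.mem_cons_of_mem _ hy))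
    intro x hx m hm
    obtain ⟨m₁, hm₁, m₂', hm₂', rfl⟩ := Submodule.mem_sup.1 hm
    obtain ⟨m₂, hm₂, rfl⟩ := hm₂'
    have hA : ∀ n ∈ ord V l, n * z.1 ∈ ord V (z :: l) := fun n hn =>
      Submodule.mem_sup_right ⟨n, hn, rfl⟩
    have hB : ∀ n ∈ ord V l, n ∈ ord V (z :: l) := fun n hn => Submodule.mem_sup_left hn
    have hz : z.1.trace ∈ V := h1 z (List.mem_cons_self ..)
    rw [LinearMap.mulRight_apply, add_mul]
    rcases List.mem_cons.1 hx with rfl | hx'
    · refine Submodule.add_mem _ (hA _ hm₁) ?_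
      rw [mul_assoc, ch_sq, mul_sub, mul_one, mul_smul_comm]
      exact Submodule.sub_mem _ (Submodule.smul_mem _ (⟨_, hz⟩ : V) (hA _ hm₂)) (hB _ hm₂)
    · refine Submodule.add_mem _ (hB _ (ih x hx' _ hm₁)) ?_
      have hxt : x.1.trace ∈ V := h1 x hx
      have hxz : (x.1 * z.1).trace ∈ V := h2 x hx z (List.mem_cons_self ..)
      rw [mul_assoc, ch_two z.1 x.1, mul_add, mul_add, mul_add, mul_neg, mul_smul_comm, mul_smul_comm,
        mul_smul_comm, mul_one, ← mul_assoc]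
      refine Submodule.add_mem _ (Submodule.add_mem _ (Submodule.add_mem _
        (Submodule.neg_mem _ (hA _ (ih x hx' _ hm₂))) ?_) ?_) ?_
      · exact Submodule.smul_mem _ (⟨_, hz⟩ : V) (hB _ (ih x hx' _ hm₂))
      · exact Submodule.smul_mem _ (⟨_, hxt⟩ : V) (hA _ hm₂)
      · exact Submodule.smul_mem _ (⟨_, V.sub_mem hxz (V.mul_mem _ _ hz hxt)⟩ : V) (hB _ hm₂)

end ord

section conj

variable {Γ F : Type} [Group Γ] [Field F] (V : ValuationSubring F)
  (ρ : Γ →* SpecialLinearGroup (Fin 2) F)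

theorem inv_eq (x : SpecialLinearGroup (Fin 2) F) : (x⁻¹).1 = x.1.trace • (1 : Matrix (Fin 2) (Fin 2) F) - x.1 := by
  have h1 : (x⁻¹).1 = adjugate x.1 := rfl
  rw [h1, adjugate_fin_two]
  ext i j
  fin_cases i <;> fin_cases j <;> simp [Matrix.trace_fin_two]

/-- a finitely generated module of matrices which is stable under the group -/
theorem exists_mod [hfg : Group.FG Γ] (h : ∀ g, (ρ g).1.trace ∈ V) :
    ∃ M : Submodule V (Matrix (Fin 2) (Fin 2) F), M.FG ∧ (1 : Matrix (Fin 2) (Fin 2) F) ∈ M ∧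
      ∀ g, ∀ m ∈ M, m * (ρ g).1 ∈ M := by
  obtain ⟨S, hS⟩ := hfg.out
  let l : List (SpecialLinearGroup (Fin 2) F) := S.toList.map ρ
  have hl : ∀ g ∈ S, ρ g ∈ l := fun g hg => List.mem_map_of_mem (Finset.mem_toList.2 hg)
  have hl' : ∀ x ∈ l, ∃ g, ρ g = x := fun x hx => by
    obtain ⟨g, _, rfl⟩ := List.mem_map.1 hx
    exact ⟨g, rfl⟩
  have h1 : ∀ x ∈ l, x.1.trace ∈ V := fun x hx => by
    obtain ⟨g, rfl⟩ := hl' x hx
    exact h g
  have h2 : ∀ x ∈ l, ∀ y ∈ l, (x.1 * y.1).trace ∈ V := fun x hx y hy => by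
    obtain ⟨g, rfl⟩ := hl' x hx
    obtain ⟨g', rfl⟩ := hl' y hy
    have := h (g * g')
    rwa [map_mul] at this
  refine ⟨ord V l, fg_ord V l, one_mem_ord V l, fun g => ?_⟩
  have hg : g ∈ Subgroup.closure (S : Set Γ) := by
    rw [hS]
    exact Subgroup.mem_top g
  induction hg using Subgroup.closure_induction with
  | mem x hx => exact mul_mem_ord V l h1 h2 _ (hl x hx)
  | one =>
    intro m hm
    rw [map_one]
    change m * (1 : Matrix (Fin 2) (Fin 2) F) ∈ _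
    rwa [mul_one]
  | mul x y _ _ hx hy =>
    intro m hm
    rw [map_mul]
    change m * ((ρ x).1 * (ρ y).1) ∈ _
    rw [← mul_assoc]
    exact hy _ (hx _ hm)
  | inv x _ hx =>
    intro m hm
    rw [map_inv, inv_eq, mul_sub, mul_smul_comm, mul_one]
    exact Submodule.sub_mem _ (Submodule.smul_mem _ (⟨_, h x⟩ : V) hm) (hx m hm)

theorem conj_of_vec [Group.FG Γ] (h : ∀ g, (ρ g).1.trace ∈ V) (e : Fin 2 → F) (g₀ : Γ)
    (he : e 0 * (e ᵥ* (ρ g₀).1) 1 - e 1 * (e ᵥ* (ρ g₀).1) 0 ≠ 0) :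
    ∃ P Q : Matrix (Fin 2) (Fin 2) F, P * Q = 1 ∧ ∀ g i j, (P * (ρ g).1 * Q) i j ∈ V := by
  classical
  obtain ⟨M, hM, h1, hst⟩ := exists_mod V ρ h
  let f : Matrix (Fin 2) (Fin 2) F →ₗ[V] (Fin 2 → F) :=
    { toFun := fun m => e ᵥ* m
      map_add' := fun m m' => vecMul_add _ _ _
      map_smul' := fun c m => by
        change e ᵥ* ((c : F) • m) = (c : F) • (e ᵥ* m)
        rw [vecMul_smul] }
  obtain ⟨s, hs⟩ := hM.map f
  obtain ⟨r₁, r₂, hr₁, hr₂, h0, hr⟩ := tri V s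
  rw [hs] at hr₁ hr₂
  have hall : ∀ w ∈ M.map f, ∃ a b : V, w = (a : F) • r₁ + (b : F) • r₂ := by
    intro w hw
    rw [← hs] at hw
    induction hw using Submodule.span_induction with
    | mem x hx => exact hr x hx
    | zero => exact ⟨0, 0, by simp⟩
    | add x y _ _ hx hy =>
      obtain ⟨a, b, rfl⟩ := hx
      obtain ⟨a', b', rfl⟩ := hy
      refine ⟨a + a', b + b', ?_⟩
      push_cast
      rw [add_smul, add_smul]
      abel
    | smul c x _ hx =>
      obtain ⟨a, b, rfl⟩ := hx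
      refine ⟨c * a, c * b, ?_⟩
      change (c : F) • ((a : F) • r₁ + (b : F) • r₂) = _
      push_cast
      rw [smul_add, mul_smul, mul_smul]
  have hst' : ∀ g, ∀ w ∈ M.map f, w ᵥ* (ρ g).1 ∈ M.map f := by
    rintro g _ ⟨m, hm, rfl⟩
    refine ⟨m * (ρ g).1, hst g m hm, ?_⟩
    change e ᵥ* (m * (ρ g).1) = (e ᵥ* m) ᵥ* (ρ g).1
    rw [vecMul_vecMul]
  have he1 : e ∈ M.map f := ⟨1, h1, vecMul_one e⟩
  have he2 : e ᵥ* (ρ g₀).1 ∈ M.map f := hst' g₀ e he1
  obtain ⟨a, b, hab⟩ := hall _ he1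
  obtain ⟨a', b', hab'⟩ := hall _ he2
  have hdet : r₁ 0 * r₂ 1 ≠ 0 := by
    intro hd
    apply he
    rw [congrFun hab' 0, congrFun hab' 1, congrFun hab 0, congrFun hab 1]
    simp only [Pi.add_apply, Pi.smul_apply, smul_eq_mul, h0]
    linear_combination ((a : F) * b' - (b : F) * a') * hd
  have hr10 : r₁ 0 ≠ 0 := left_ne_zero_of_mul hdet
  have hr21 : r₂ 1 ≠ 0 := right_ne_zero_of_mul hdet
  let P : Matrix (Fin 2) (Fin 2) F := !![r₁ 0, r₁ 1; r₂ 0, r₂ 1]
  let Q : Matrix (Fin 2) (Fin 2) F := !![(r₁ 0)⁻¹, -(r₁ 1) * (r₁ 0)⁻¹ * (r₂ 1)⁻¹; 0, (r₂ 1)⁻¹]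
  have hPQ : P * Q = 1 := by
    ext i j
    fin_cases i <;> fin_cases j
    · simp [P, Q, Matrix.mul_apply, Fin.sum_univ_two, hr10]
    · rw [Matrix.mul_apply, Fin.sum_univ_two]
      change r₁ 0 * (-(r₁ 1) * (r₁ 0)⁻¹ * (r₂ 1)⁻¹) + r₁ 1 * (r₂ 1)⁻¹ = 0
      linear_combination (-(r₁ 1) * (r₂ 1)⁻¹) * mul_inv_cancel₀ hr10
    · simp [P, Q, Matrix.mul_apply, Fin.sum_univ_two, h0]
    · simp [P, Q, Matrix.mul_apply, Fin.sum_univ_two, h0, hr21]
  refine ⟨P, Q, hPQ, fun g => ?_⟩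
  obtain ⟨c₁, d₁, e₁⟩ := hall _ (hst' g _ hr₁)
  obtain ⟨c₂, d₂, e₂⟩ := hall _ (hst' g _ hr₂)
  have key : P * (ρ g).1 = !![(c₁ : F), (d₁ : F); (c₂ : F), (d₂ : F)] * P := by
    have e10 := congrFun e₁ 0
    have e11 := congrFun e₁ 1
    have e20 := congrFun e₂ 0
    have e21 := congrFun e₂ 1
    simp only [Matrix.vecMul, dotProduct, Fin.sum_univ_two, Pi.add_apply, Pi.smul_apply,
      smul_eq_mul] at e10 e11 e20 e21
    ext i j
    fin_cases i <;> fin_cases j
    · simpa [P, Matrix.mul_apply, Fin.sum_univ_two] using e10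
    · simpa [P, Matrix.mul_apply, Fin.sum_univ_two] using e11
    · simpa [P, Matrix.mul_apply, Fin.sum_univ_two] using e20
    · simpa [P, Matrix.mul_apply, Fin.sum_univ_two] using e21
  rw [key, mul_assoc, hPQ, mul_one]
  intro i j
  fin_cases i <;> fin_cases j
  · exact c₁.2
  · exact d₁.2
  · exact c₂.2
  · exact d₂.2

/-- a representation with traces in a valuation ring is conjugate to one with entries in it -/
theorem exists_conj [Group.FG Γ] (h : ∀ g, (ρ g).1.trace ∈ V) :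
    ∃ P Q : Matrix (Fin 2) (Fin 2) F, P * Q = 1 ∧ ∀ g i j, (P * (ρ g).1 * Q) i j ∈ V := by
  by_cases h1 : ∃ g, (ρ g).1 0 1 ≠ 0
  · obtain ⟨g, hg⟩ := h1
    refine conj_of_vec V ρ h ![1, 0] g ?_
    simpa [Matrix.vecMul, dotProduct, Fin.sum_univ_two] using hg
  by_cases h2 : ∃ g, (ρ g).1 1 0 ≠ 0
  · obtain ⟨g, hg⟩ := h2
    refine conj_of_vec V ρ h ![0, 1] g ?_
    simpa [Matrix.vecMul, dotProduct, Fin.sum_univ_two] using hg
  push Not at h1 h2
  by_cases h3 : ∃ g, (ρ g).1 1 1 - (ρ g).1 0 0 ≠ 0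
  · obtain ⟨g, hg⟩ := h3
    refine conj_of_vec V ρ h ![1, 1] g ?_
    simpa [Matrix.vecMul, dotProduct, Fin.sum_univ_two, h1 g, h2 g] using hg
  push Not at h3
  refine ⟨1, 1, mul_one 1, fun g i j => ?_⟩
  rw [one_mul, mul_one]
  have hd := (ρ g).2
  rw [det_fin_two, h1 g, h2 g, mul_zero, sub_zero, ← sub_eq_zero.1 (h3 g)] at hd
  have hu : (ρ g).1 1 1 ∈ V := by
    rcases V.mem_or_inv_mem ((ρ g).1 1 1) with h5 | h5
    · exact h5
    · rwa [inv_eq_of_mul_eq_one_left hd] at h5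
  fin_cases i <;> fin_cases j
  · change (ρ g).1 0 0 ∈ V
    rw [← sub_eq_zero.1 (h3 g)]
    exact hu
  · change (ρ g).1 0 1 ∈ V
    rw [h1 g]
    exact V.zero_mem
  · change (ρ g).1 1 0 ∈ V
    rw [h2 g]
    exact V.zero_mem
  · exact hu

end conj

end Pool.Agent.SuCO
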