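import Pool.Agent.Lib.MP_305fdd_al.Su.TR.Defs

/-!
# MP_305fdd_al, surface groups, block CO: limits of representations in a completion
-/

set_option autoImplicit false

namespace Pool.Agent.SuCO

open Pool.Agent.SuTR

section

variable {B R : Type} [CommRing B] [CommRing R] {φ : B →+* R} {J : Ideal B}

/-- the projections of a completion to the quotients by the powers -/
theorem exists_proj (h : Comp φ J) (n : ℕ) : ∃ q : R →+* B ⧸ J ^ n,
    (∀ b, q (φ b) = Ideal.Quotient.mk (J ^ n) b) ∧ ∀ r, q r = 0 ↔ r ∈ (J.map φ) ^ n := by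
  choose s hs using fun r => h.dense n r
  have hw : ∀ r b, r - φ b ∈ (J.map φ) ^ n →
      Ideal.Quotient.mk (J ^ n) (s r) = Ideal.Quotient.mk (J ^ n) b := by
    intro r b hb
    rw [Ideal.Quotient.eq]
    refine h.top n _ ?_
    have h1 : φ (s r - b) = (r - φ b) - (r - φ (s r)) := by
      rw [map_sub]
      ring
    rw [h1]
    exact Ideal.sub_mem _ hb (hs r)
  let q : R →+* B ⧸ J ^ n :=
    { toFun := fun r => Ideal.Quotient.mk (J ^ n) (s r)
      map_one' := by
        rw [hw 1 1 (by rw [map_one, sub_self]; exact Ideal.zero_mem _), map_one]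
      map_mul' := fun x y => by
        rw [← map_mul]
        refine hw _ _ ?_
        have h1 : x * y - φ (s x * s y) = (x - φ (s x)) * y + φ (s x) * (y - φ (s y)) := by
          rw [map_mul]
          ring
        rw [h1]
        exact Ideal.add_mem _ (Ideal.mul_mem_right _ _ (hs x)) (Ideal.mul_mem_left _ _ (hs y))
      map_zero' := by
        change Ideal.Quotient.mk (J ^ n) (s 0) = 0
        rw [hw 0 0 (by rw [map_zero, sub_self]; exact Ideal.zero_mem _), map_zero]
      map_add' := fun x y => by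
        change Ideal.Quotient.mk (J ^ n) (s (x + y)) = Ideal.Quotient.mk (J ^ n) (s x) +
          Ideal.Quotient.mk (J ^ n) (s y)
        rw [← map_add]
        refine hw _ _ ?_
        rw [map_add, add_sub_add_comm]
        exact Ideal.add_mem _ (hs x) (hs y) }
  have hq : ∀ b, q (φ b) = Ideal.Quotient.mk (J ^ n) b := fun b =>
    hw (φ b) b (by rw [sub_self]; exact Ideal.zero_mem _)
  refine ⟨q, hq, fun r => ⟨fun hr => ?_, fun hr => ?_⟩⟩
  · have h1 : s r ∈ J ^ n := Ideal.Quotient.eq_zero_iff_mem.1 hr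
    have h2 : φ (s r) ∈ (J.map φ) ^ n := by
      rw [← Ideal.map_pow]
      exact Ideal.mem_map_of_mem φ h1
    have h3 := Ideal.add_mem _ (hs r) h2
    rwa [sub_add_cancel] at h3
  · change Ideal.Quotient.mk (J ^ n) (s r) = 0
    rw [hw r 0 (by rwa [map_zero, sub_zero]), map_zero]

/-- the projection -/
noncomputable def pr (h : Comp φ J) (n : ℕ) : R →+* B ⧸ J ^ n := (exists_proj h n).choose

theorem pr_apply (h : Comp φ J) (n : ℕ) (b : B) : pr h n (φ b) = Ideal.Quotient.mk (J ^ n) b :=
  (exists_proj h n).choose_spec.1 b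

theorem pr_eq_zero (h : Comp φ J) (n : ℕ) (r : R) : pr h n r = 0 ↔ r ∈ (J.map φ) ^ n :=
  (exists_proj h n).choose_spec.2 r

theorem pr_ext (h : Comp φ J) {x y : R} (hxy : ∀ n, pr h n x = pr h n y) : x = y := by
  rw [← sub_eq_zero]
  refine h.sep _ fun n => ?_
  rw [← pr_eq_zero h, map_sub, hxy, sub_self]

/-- the transition map -/
def tr (J : Ideal B) (n : ℕ) : B ⧸ J ^ (n + 1) →+* B ⧸ J ^ n :=
  Ideal.Quotient.factor (Ideal.pow_le_pow_right (Nat.le_succ n))

theorem exists_lim (h : Comp φ J) (x : ∀ n : ℕ, B ⧸ J ^ n) (hx : ∀ n, tr J n (x (n + 1)) = x n) :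
    ∃ r, ∀ n, pr h n r = x n := by
  choose b hb using fun n => Ideal.Quotient.mk_surjective (x n)
  have h1 : ∀ n, b (n + 1) - b n ∈ J ^ n := by
    intro n
    rw [← Ideal.Quotient.eq, hb n, ← hx n, ← hb (n + 1)]
    rfl
  obtain ⟨r, hr⟩ := h.cpl b h1
  refine ⟨r, fun n => ?_⟩
  have h2 := (pr_eq_zero h n _).2 (hr n)
  rw [map_sub, sub_eq_zero, pr_apply, hb n] at h2
  exact h2

/-- the limit of a compatible family of representations -/
theorem exists_lim_rep {Γ : Type} [Group Γ] (h : Comp φ J)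
    (s : ∀ n : ℕ, Γ →* Matrix.SpecialLinearGroup (Fin 2) (B ⧸ J ^ n))
    (hs : ∀ n g, Matrix.SpecialLinearGroup.map (tr J n) (s (n + 1) g) = s n g) :
    ∃ r : Γ →* Matrix.SpecialLinearGroup (Fin 2) R, ∀ n g,
      Matrix.SpecialLinearGroup.map (pr h n) (r g) = s n g := by
  have h1 : ∀ (g : Γ) (i j : Fin 2), ∃ x, ∀ n, pr h n x = (s n g).1 i j := by
    intro g i j
    refine exists_lim h (fun n => (s n g).1 i j) fun n => ?_
    rw [← hs n g]
    rfl
  choose x hx using h1
  have hdet : ∀ g, (Matrix.of (x g)).det = 1 := by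
    intro g
    refine pr_ext h fun n => ?_
    have h2 := (s n g).2
    rw [Matrix.det_fin_two] at h2 ⊢
    simp only [Matrix.of_apply]
    rw [map_sub, map_mul, map_mul, hx, hx, hx, hx, map_one]
    exact h2
  refine ⟨{ toFun := fun g => ⟨Matrix.of (x g), hdet g⟩
            map_one' := ?_
            map_mul' := fun g k => ?_ }, fun n g => ?_⟩
  · apply Subtype.ext
    ext i j
    refine pr_ext h fun n => ?_
    change pr h n (x 1 i j) = pr h n ((1 : Matrix (Fin 2) (Fin 2) R) i j)
    rw [hx, map_one]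
    change (1 : Matrix (Fin 2) (Fin 2) (B ⧸ J ^ n)) i j = _
    rw [Matrix.one_apply, Matrix.one_apply]
    split_ifs
    · rw [map_one]
    · rw [map_zero]
  · apply Subtype.ext
    ext i j
    refine pr_ext h fun n => ?_
    change pr h n (x (g * k) i j) = pr h n ((Matrix.of (x g) * Matrix.of (x k) :
      Matrix (Fin 2) (Fin 2) R) i j)
    rw [hx, map_mul, Matrix.mul_apply, map_sum]
    change ((s n g).1 * (s n k).1) i j = _
    rw [Matrix.mul_apply]
    refine Finset.sum_congr rfl fun l _ => ?_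
    rw [Matrix.of_apply, Matrix.of_apply, map_mul, hx, hx]
  · apply Subtype.ext
    ext i j
    exact hx g i j n

/-- a nonzerodivisor of `B` is a nonzerodivisor of the completion -/
theorem nzd (h : Comp φ J) {b : B} (hb : ∀ c : B, c * b = 0 → c = 0) {x : R}
    (hx : x * φ b = 0) : x = 0 := by
  obtain ⟨m, s, c, h1, h2⟩ := h.flat 1 (fun _ => b) (fun _ => x) (by
    rw [Fin.sum_univ_one]
    exact hx)
  rw [h1 0]
  refine Finset.sum_eq_zero fun j _ => ?_
  have h3 := h2 j
  rw [Fin.sum_univ_one] at h3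
  rw [hb _ h3, map_zero, mul_zero]

end

end Pool.Agent.SuCO
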