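import Pool.Agent.Lib.MP_305fdd_al.Su.CO.Topo
import Pool.Agent.Lib.MP_305fdd_al.Fr.Roq.Main

/-!
# MP_305fdd_al, surface groups, block CO: ideals of finite index
-/

set_option autoImplicit false

namespace Pool.Agent.SuCO

open Pool.Agent.FrN

theorem finite_inf {R : Type} [CommRing R] (J₁ J₂ : Ideal R) (h1 : Finite (R ⧸ J₁))
    (h2 : Finite (R ⧸ J₂)) : Finite (R ⧸ (J₁ ⊓ J₂)) := by
  let f : R ⧸ (J₁ ⊓ J₂) → (R ⧸ J₁) × (R ⧸ J₂) := fun x =>
    (Ideal.Quotient.factor inf_le_left x, Ideal.Quotient.factor inf_le_right x)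
  refine Finite.of_injective f fun x y hxy => ?_
  obtain ⟨x, rfl⟩ := Ideal.Quotient.mk_surjective x
  obtain ⟨y, rfl⟩ := Ideal.Quotient.mk_surjective y
  have e1 := congrArg Prod.fst hxy
  have e2 := congrArg Prod.snd hxy
  change Ideal.Quotient.mk J₁ x = Ideal.Quotient.mk J₁ y at e1
  change Ideal.Quotient.mk J₂ x = Ideal.Quotient.mk J₂ y at e2
  rw [Ideal.Quotient.eq] at e1 e2 ⊢
  exact ⟨e1, e2⟩

theorem finite_residue (p : ℕ) [Fact p.Prime] {R : Type} [CommRing R] [Algebra (ZMod p) R]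
    [Algebra.FiniteType (ZMod p) R] (m : Ideal R) (hm : m.IsMaximal) : Finite (R ⧸ m) := by
  let _ := Ideal.Quotient.field m
  have h1 : Algebra.FiniteType (ZMod p) (R ⧸ m) :=
    Algebra.FiniteType.of_surjective (Ideal.Quotient.mkₐ (ZMod p) m) Ideal.Quotient.mk_surjective
  have h2 : Module.Finite (ZMod p) (R ⧸ m) := finite_of_finite_type_of_isJacobsonRing _ _
  exact Module.finite_of_finite (ZMod p)

/-- finitely generated algebras over a finite field are residually finite -/
theorem exists_fin (p : ℕ) [Fact p.Prime] {R : Type} [CommRing R] [Algebra (ZMod p) R]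
    [Algebra.FiniteType (ZMod p) R] (x : R) (hx : x ≠ 0) : ∃ J : Ideal R, Finite (R ⧸ J) ∧ x ∉ J := by
  have hnoeth : IsNoetherianRing R := Algebra.FiniteType.isNoetherianRing (ZMod p) R
  have h1 : Submodule.annihilator (Ideal.span {x}) ≠ ⊤ := by
    intro h0
    have h2 : (1 : R) ∈ Submodule.annihilator (Ideal.span {x}) := by
      rw [h0]
      trivial
    rw [Submodule.mem_annihilator] at h2
    have h3 := h2 x (Ideal.mem_span_singleton_self x)
    rw [one_smul] at h3
    exact hx h3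
  obtain ⟨m, hm, hle⟩ := Ideal.exists_le_maximal _ h1
  have hn : ∃ n : ℕ, x ∉ m ^ n := by
    by_contra hcon
    push Not at hcon
    have h2 : x ∈ (⨅ i : ℕ, m ^ i • ⊤ : Submodule R R) := by
      rw [Submodule.mem_iInf]
      intro i
      rw [smul_eq_mul, Ideal.mul_top]
      exact hcon i
    obtain ⟨r, hr⟩ := (Ideal.mem_iInf_smul_pow_eq_bot_iff m x).1 h2
    rw [smul_eq_mul] at hr
    have h3 : (1 : R) - r ∈ Submodule.annihilator (Ideal.span {x}) := by
      rw [Submodule.mem_annihilator]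
      intro y hy
      obtain ⟨z, rfl⟩ := Ideal.mem_span_singleton'.1 hy
      rw [smul_eq_mul]
      linear_combination (-z) * hr
    have h4 : (1 : R) ∈ m := by
      have h5 := m.add_mem (hle h3) r.2
      rwa [sub_add_cancel] at h5
    exact hm.ne_top ((Ideal.eq_top_iff_one m).2 h4)
  obtain ⟨n, hn⟩ := hn
  have := finite_residue p m hm
  exact ⟨m ^ n, Ideal.finite_quotient_pow (IsNoetherian.noetherian m) n, hn⟩

theorem exists_fin_set (p : ℕ) [Fact p.Prime] {R : Type} [CommRing R] [Algebra (ZMod p) R]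
    [Algebra.FiniteType (ZMod p) R] (s : Set R) (hs : s.Finite) :
    ∃ J : Ideal R, Finite (R ⧸ J) ∧ ∀ x ∈ s, x ∈ J → x = 0 := by
  induction s, hs using Set.Finite.induction_on with
  | empty =>
    refine ⟨⊤, ?_, by simp⟩
    have : Subsingleton (R ⧸ (⊤ : Ideal R)) := Ideal.Quotient.subsingleton_iff.2 rfl
    infer_instance
  | @insert x s _ _ ih =>
    obtain ⟨J, hJ, h1⟩ := ih
    by_cases hx : x = 0
    · refine ⟨J, hJ, fun y hy hyJ => ?_⟩
      rcases hy with rfl | hy
      · exact hx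
      · exact h1 y hy hyJ
    · obtain ⟨J', hJ', h2⟩ := exists_fin p x hx
      refine ⟨J ⊓ J', finite_inf J J' hJ hJ', fun y hy hyJ => ?_⟩
      rcases hy with rfl | hy
      · exact absurd hyJ.2 h2
      · exact h1 y hy hyJ.1

section main

variable {p : ℕ} [Fact p.Prime] {Γ K F : Type} [Group Γ] [Field K] [Field F] [Algebra (ZMod p) K]
    [Algebra (ZMod p) F] [Algebra K F] {T : Γ → K} {ρ : Γ →* Matrix.SpecialLinearGroup (Fin 2) F}

/-- every ideal of finite index of the trace ring contains the intersection with an ideal of finite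
index of the ring of the entries -/
theorem TR.exists_ideal (H : TR p T ρ) (c : Ideal (BB p T)) [hc : Finite (BB p T ⧸ c)] :
    ∃ J : Ideal (OO p ρ), Finite (OO p ρ ⧸ J) ∧ ∀ b, H.inc b ∈ J → b ∈ c := by
  obtain ⟨N, hN⟩ := H.topo c
  have hft : Algebra.FiniteType (ZMod p) (BB p T) := (BB p T).fg_iff_finiteType.1 H.BB_fg
  have hnoeth : IsNoetherianRing (BB p T) := Algebra.FiniteType.isNoetherianRing (ZMod p) (BB p T)
  have hOft : Algebra.FiniteType (ZMod p) (OO p ρ) :=
    (OO p ρ).fg_iff_finiteType.1 (FrRoq.OO_fg ρ H.fg)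
  have hfin : Finite (BB p T ⧸ c ^ N) := Ideal.finite_quotient_pow (IsNoetherian.noetherian c) N
  let I : Ideal (OO p ρ) := (c ^ N).map (H.inc : BB p T →+* OO p ρ)
  have hQft : Algebra.FiniteType (ZMod p) (OO p ρ ⧸ I) :=
    Algebra.FiniteType.of_surjective (Ideal.Quotient.mkₐ (ZMod p) I) Ideal.Quotient.mk_surjective
  let f : BB p T → OO p ρ ⧸ I := fun b => Ideal.Quotient.mk I (H.inc b)
  have hs : (Set.range f).Finite := by
    let g : BB p T ⧸ c ^ N → OO p ρ ⧸ I :=
      Ideal.quotientMap I (H.inc : BB p T →+* OO p ρ) Ideal.le_comap_map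
    have h1 : Set.range f ⊆ Set.range g := by
      rintro _ ⟨b, rfl⟩
      exact ⟨Ideal.Quotient.mk _ b, Ideal.quotientMap_mk⟩
    exact (Set.finite_range g).subset h1
  obtain ⟨J', hJ', h2⟩ := exists_fin_set p (Set.range f) hs
  refine ⟨J'.comap (Ideal.Quotient.mk I), ?_, fun b hb => hN b ?_⟩
  · refine Finite.of_injective (Ideal.quotientMap J' (Ideal.Quotient.mk I) le_rfl) ?_
    exact Ideal.quotientMap_injective
  · exact Ideal.Quotient.eq_zero_iff_mem.1 (h2 _ ⟨b, rfl⟩ hb)

end main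

end Pool.Agent.SuCO
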