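import Pool.Agent.Lib.MP_305fdd_al.Su.CO.Main
import Pool.Agent.Lib.MP_305fdd_al.Su.CO.Cp
import Pool.Agent.Lib.MP_305fdd_al.Su.Ind.Cmp

/-!
# MP_305fdd_al, surface groups, block CO: the trace rings of two groups with the same finite quotients
have the same completions
-/

set_option autoImplicit false

namespace Pool.Agent.SuCO

open Pool.Agent.FrN Pool.Agent.FrNA Pool.Agent.Lib.MP_305fdd_al Pool.Agent.SuTR Pool.Agent.SuInd

section mi

variable {p : ℕ} {Λ Δ K K' : Type} [Group Λ] [Group Δ] [Field K] [Field K'] [Algebra (ZMod p) K]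
  [Algebra (ZMod p) K'] {T : Λ → K} {T' : Δ → K'}

/-- the ideals `I` and `I'` have the same images in the finite rings -/
def MI (Φ : NatBij Λ Δ) (I : Ideal (BB p T)) (I' : Ideal (BB p T')) : Prop :=
  ∀ (R : Type) [CommRing R] [Algebra (ZMod p) R] [Finite R] (a : BB p T →ₐ[ZMod p] R)
    (a' : BB p T' →ₐ[ZMod p] R), Mt Φ a a' →
    I.map (a : BB p T →+* R) = I'.map (a' : BB p T' →+* R)

variable {Φ : NatBij Λ Δ} {I I₁ I₂ : Ideal (BB p T)} {I' I₁' I₂' : Ideal (BB p T')}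

theorem MI.symm (h : MI Φ I I') : MI Φ.symm I' I := fun R _ _ _ a' a ham =>
  (h R a a' ham.symm).symm

theorem MI.sup (h₁ : MI Φ I₁ I₁') (h₂ : MI Φ I₂ I₂') : MI Φ (I₁ ⊔ I₂) (I₁' ⊔ I₂') :=
  fun R _ _ _ a a' ham => by rw [Ideal.map_sup, Ideal.map_sup, h₁ R a a' ham, h₂ R a a' ham]

theorem MI.mul (h₁ : MI Φ I₁ I₁') (h₂ : MI Φ I₂ I₂') : MI Φ (I₁ * I₂) (I₁' * I₂') :=
  fun R _ _ _ a a' ham => by rw [Ideal.map_mul, Ideal.map_mul, h₁ R a a' ham, h₂ R a a' ham]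

theorem MI.pow (h : MI Φ I I') (n : ℕ) : MI Φ (I ^ n) (I' ^ n) :=
  fun R _ _ _ a a' ham => by rw [Ideal.map_pow, Ideal.map_pow, h R a a' ham]

theorem MI.top : MI Φ (⊤ : Ideal (BB p T)) (⊤ : Ideal (BB p T')) :=
  fun R _ _ _ a a' _ => by rw [Ideal.map_top, Ideal.map_top]

theorem MI.bot : MI Φ (⊥ : Ideal (BB p T)) (⊥ : Ideal (BB p T')) :=
  fun R _ _ _ a a' _ => by rw [Ideal.map_bot, Ideal.map_bot]

theorem MI.prod {ι : Type} (s : Finset ι) {I : ι → Ideal (BB p T)} {I' : ι → Ideal (BB p T')}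
    (h : ∀ i ∈ s, MI Φ (I i) (I' i)) : MI Φ (∏ i ∈ s, I i) (∏ i ∈ s, I' i) := by
  classical
  induction s using Finset.induction_on with
  | empty =>
    rw [Finset.prod_empty, Finset.prod_empty, Ideal.one_eq_top, Ideal.one_eq_top]
    exact MI.top
  | insert i s hi ih =>
    rw [Finset.prod_insert hi, Finset.prod_insert hi]
    exact (h i (Finset.mem_insert_self i s)).mul (ih fun j hj => h j (Finset.mem_insert_of_mem hj))

theorem MI.span {U : Set (BB p T)} {U' : Set (BB p T')}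
    (h : ∀ (R : Type) [CommRing R] [Algebra (ZMod p) R] [Finite R] (a : BB p T →ₐ[ZMod p] R)
      (a' : BB p T' →ₐ[ZMod p] R), Mt Φ a a' → a '' U = a' '' U') :
    MI Φ (Ideal.span U) (Ideal.span U') := fun R _ _ _ a a' ham => by
  rw [Ideal.map_span, Ideal.map_span]
  exact congrArg Ideal.span (h R a a' ham)

theorem MI.frI (k : ℕ) : MI Φ (frI p k (BB p T)) (frI p k (BB p T')) := by
  refine MI.span fun R _ _ _ a a' ham => ?_
  have h1 : ∀ x, x ∈ a.range ↔ x ∈ a'.range := fun x => by rw [ham.range_eq]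
  apply Set.Subset.antisymm
  · rintro _ ⟨_, ⟨x, rfl⟩, rfl⟩
    obtain ⟨y, hy⟩ := (h1 (a x)).1 ⟨x, rfl⟩
    change a' y = a x at hy
    exact ⟨_, ⟨y, rfl⟩, by rw [map_sub, map_pow, map_sub, map_pow, hy]⟩
  · rintro _ ⟨_, ⟨x, rfl⟩, rfl⟩
    obtain ⟨y, hy⟩ := (h1 (a' x)).2 ⟨x, rfl⟩
    change a y = a' x at hy
    exact ⟨_, ⟨y, rfl⟩, by rw [map_sub, map_pow, map_sub, map_pow, hy]⟩

theorem MI.JJ (d : ℕ) : MI Φ (JJ p d (BB p T)) (JJ p d (BB p T')) :=
  MI.prod _ fun k _ => MI.frI k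

/-- the ideals generated by the `T g - c`, `g ∈ X` -/
theorem MI.tr {X : Set Λ} {X' : Set Δ} (c : ZMod p)
    (h : ∀ (Q : Type) [Group Q] [Finite Q] (θ : Λ →* Q), θ '' X = Φ.toFun Q θ '' X') :
    MI Φ (Ideal.span ((fun g => bT p T g - algebraMap (ZMod p) _ c) '' X))
      (Ideal.span ((fun g => bT p T' g - algebraMap (ZMod p) _ c) '' X')) := by
  refine MI.span fun R _ _ _ a a' ham => ?_
  obtain ⟨Q, hQ, hQ', θ, t, h1, h2⟩ := ham
  have h3 := h Q θ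
  apply Set.Subset.antisymm
  · rintro _ ⟨_, ⟨g, hg, rfl⟩, rfl⟩
    obtain ⟨g', hg', he⟩ : θ g ∈ Φ.toFun Q θ '' X' := h3 ▸ ⟨g, hg, rfl⟩
    refine ⟨_, ⟨g', hg', rfl⟩, ?_⟩
    rw [map_sub, map_sub, AlgHom.commutes, AlgHom.commutes, h1, h2, he]
  · rintro _ ⟨_, ⟨g, hg, rfl⟩, rfl⟩
    obtain ⟨g', hg', he⟩ : Φ.toFun Q θ g ∈ θ '' X := h3 ▸ ⟨g, hg, rfl⟩
    refine ⟨_, ⟨g', hg', rfl⟩, ?_⟩
    rw [map_sub, map_sub, AlgHom.commutes, AlgHom.commutes, h1, h2, he]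

end mi

section main

variable {p : ℕ} [Fact p.Prime] {Λ Δ K K' F F' : Type} [Group Λ] [Group Δ] [Field K] [Field K']
  [Field F] [Field F'] [Algebra (ZMod p) K] [Algebra (ZMod p) K'] [Algebra (ZMod p) F]
  [Algebra (ZMod p) F'] [Algebra K F] [Algebra K' F'] {T : Λ → K} {T' : Δ → K'}
  {ρ : Λ →* Matrix.SpecialLinearGroup (Fin 2) F} {ρ' : Δ →* Matrix.SpecialLinearGroup (Fin 2) F'}
  {Φ : NatBij Λ Δ}

theorem TR.noeth (H : TR p T ρ) : IsNoetherianRing (BB p T) := by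
  have := (BB p T).fg_iff_finiteType.1 H.BB_fg
  exact Algebra.FiniteType.isNoetherianRing (ZMod p) (BB p T)

theorem TR.finite_pow (H : TR p T ρ) (J : Ideal (BB p T)) (hJ : Finite (BB p T ⧸ J)) (n : ℕ) :
    Finite (BB p T ⧸ J ^ n) := by
  have := H.noeth
  exact Ideal.finite_quotient_pow (IsNoetherian.noetherian J) n

/-- the kernel of the match of `B → B/J` -/
theorem ker_mt (H : TR p T ρ) (H' : TR p T' ρ') (hΦ' : Tp p Φ.symm ρ' ρ)
    {J : Ideal (BB p T)} {J' : Ideal (BB p T')} (hJ : MI Φ J J') (hf : Finite (BB p T ⧸ J))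
    (hf' : Finite (BB p T' ⧸ J')) {a' : BB p T' →ₐ[ZMod p] BB p T ⧸ J}
    (h : Mt Φ (Ideal.Quotient.mkₐ (ZMod p) J) a') (y : BB p T') : a' y = 0 ↔ y ∈ J' := by
  constructor
  · intro hy
    obtain ⟨b, hb⟩ := exists_mt H' H hΦ' (Ideal.Quotient.mkₐ (ZMod p) J')
    have hb' : Mt Φ b (Ideal.Quotient.mkₐ (ZMod p) J') := hb.symm
    have h1 := hJ _ _ _ hb'
    have h2 : ∀ x ∈ J, b x = 0 := by
      intro x hx
      have h3 : b x ∈ J.map (b : BB p T →+* BB p T' ⧸ J') := Ideal.mem_map_of_mem _ hx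
      rw [h1] at h3
      have h4 : J'.map ((Ideal.Quotient.mkₐ (ZMod p) J' : BB p T' →ₐ[ZMod p] BB p T' ⧸ J') :
          BB p T' →+* BB p T' ⧸ J') = ⊥ := by
        rw [Ideal.map_eq_bot_iff_le_ker]
        intro z hz
        exact Ideal.Quotient.eq_zero_iff_mem.2 hz
      rw [h4] at h3
      exact h3
    let f : BB p T ⧸ J →ₐ[ZMod p] BB p T' ⧸ J' := Ideal.Quotient.liftₐ J b h2
    have h5 : f.comp (Ideal.Quotient.mkₐ (ZMod p) J) = b := by
      ext x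
      rfl
    have h6 := h.comp f
    rw [h5] at h6
    have h7 := h6.unique hb'
    have h8 : (Ideal.Quotient.mkₐ (ZMod p) J') y = 0 := by
      rw [← h7]
      change f (a' y) = 0
      rw [hy, map_zero]
    exact Ideal.Quotient.eq_zero_iff_mem.1 h8
  · intro hy
    have h1 := hJ _ _ _ h
    have h2 : a' y ∈ J'.map (a' : BB p T' →+* BB p T ⧸ J) := Ideal.mem_map_of_mem _ hy
    rw [← h1] at h2
    have h4 : J.map ((Ideal.Quotient.mkₐ (ZMod p) J : BB p T →ₐ[ZMod p] BB p T ⧸ J) :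
        BB p T →+* BB p T ⧸ J) = ⊥ := by
      rw [Ideal.map_eq_bot_iff_le_ker]
      intro z hz
      exact Ideal.Quotient.eq_zero_iff_mem.2 hz
    rw [h4] at h2
    exact h2

/-- THEOREM: the completions of the trace rings at `J` and `J'` are isomorphic, and the ideals with
the same finite images generate the same ideal of the completion -/
theorem exists_same (H : TR p T ρ) (H' : TR p T' ρ') (hΦ : Tp p Φ ρ ρ')
    (hΦ' : Tp p Φ.symm ρ' ρ) {J : Ideal (BB p T)} {J' : Ideal (BB p T')} (hJ : MI Φ J J')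
    (hf : Finite (BB p T ⧸ J)) (hf' : Finite (BB p T' ⧸ J')) {R R' : Type} [CommRing R]
    [CommRing R'] {φ : BB p T →+* R} {ψ : BB p T' →+* R'} (hc : Comp φ J) (hc' : Comp ψ J') :
    ∃ φ' : BB p T' →+* R, Comp φ' J' ∧ ∀ (I : Ideal (BB p T)) (I' : Ideal (BB p T')),
      MI Φ I I' → I.map φ = I'.map φ' := by
  have hfin := H.finite_pow J hf
  have hfin' := H'.finite_pow J' hf'
  have hex : ∀ n : ℕ, ∃ a' : BB p T' →ₐ[ZMod p] BB p T ⧸ J ^ n,
      Mt Φ (Ideal.Quotient.mkₐ (ZMod p) (J ^ n)) a' := fun n =>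
    exists_mt H H' hΦ (Ideal.Quotient.mkₐ (ZMod p) (J ^ n))
  choose a' ha' using hex
  have hsurj : ∀ n, Function.Surjective (a' n) := fun n =>
    (ha' n).surj Ideal.Quotient.mk_surjective
  have hcomp : ∀ n y b, a' (n + 1) y = Ideal.Quotient.mk (J ^ (n + 1)) b →
      a' n y = Ideal.Quotient.mk (J ^ n) b := by
    intro n y b hyb
    let g : BB p T ⧸ J ^ (n + 1) →ₐ[ZMod p] BB p T ⧸ J ^ n :=
      Ideal.Quotient.liftₐ (J ^ (n + 1)) (Ideal.Quotient.mkₐ (ZMod p) (J ^ n)) fun x hx =>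
        Ideal.Quotient.eq_zero_iff_mem.2 (Ideal.pow_le_pow_right (Nat.le_succ n) hx)
    have h1 : g.comp (Ideal.Quotient.mkₐ (ZMod p) (J ^ (n + 1))) =
        Ideal.Quotient.mkₐ (ZMod p) (J ^ n) := by
      ext x
      rfl
    have h2 := (ha' (n + 1)).comp g
    rw [h1] at h2
    rw [(ha' n).unique h2]
    change g (a' (n + 1) y) = _
    rw [hyb]
    rfl
  obtain ⟨e, he⟩ := exists_iso hc hc' (fun n => (a' n : BB p T' →+* BB p T ⧸ J ^ n)) hsurj
    (fun n y => ker_mt H H' hΦ' (hJ.pow n) (hfin n) (hfin' n) (ha' n) y) hcomp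
  refine ⟨(e : R' →+* R).comp ψ, comp_equiv hc' e, fun I I' hI => le_antisymm ?_ ?_⟩
  · refine hc.le_of fun n => ?_
    rw [Ideal.map_le_iff_le_comap]
    intro b hb
    have h1 : Ideal.Quotient.mk (J ^ n) b ∈ I.map (Ideal.Quotient.mk (J ^ n)) :=
      Ideal.mem_map_of_mem _ hb
    have h2 := hI _ _ _ (ha' n)
    change I.map (Ideal.Quotient.mk (J ^ n)) = _ at h2
    rw [h2, Ideal.mem_map_iff_of_surjective (a' n : BB p T' →+* BB p T ⧸ J ^ n) (hsurj n)] at h1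
    obtain ⟨y, hy, hyb⟩ := h1
    have h3 := he n y b hyb
    rw [Ideal.mem_comap]
    have h4 : φ b = ((e : R' →+* R).comp ψ) y - (e (ψ y) - φ b) := by
      change φ b = e (ψ y) - (e (ψ y) - φ b)
      ring
    rw [h4]
    exact Ideal.sub_mem _ (Ideal.mem_sup_left (Ideal.mem_map_of_mem _ hy))
      (Ideal.mem_sup_right h3)
  · refine hc.le_of fun n => ?_
    rw [Ideal.map_le_iff_le_comap]
    intro y hy
    have h1 : a' n y ∈ I'.map (a' n : BB p T' →+* BB p T ⧸ J ^ n) := Ideal.mem_map_of_mem _ hy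
    have h2 := hI _ _ _ (ha' n)
    change I.map (Ideal.Quotient.mk (J ^ n)) = _ at h2
    rw [← h2, Ideal.mem_map_iff_of_surjective (Ideal.Quotient.mk (J ^ n))
      Ideal.Quotient.mk_surjective] at h1
    obtain ⟨b, hb, hyb⟩ := h1
    have h3 := he n y b hyb.symm
    rw [Ideal.mem_comap]
    have h4 : ((e : R' →+* R).comp ψ) y = φ b + (e (ψ y) - φ b) := by
      change e (ψ y) = φ b + (e (ψ y) - φ b)
      ring
    rw [h4]
    exact Ideal.add_mem _ (Ideal.mem_sup_left (Ideal.mem_map_of_mem _ hb))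
      (Ideal.mem_sup_right h3)

/-- existence of completions -/
def HasComp : Prop := ∀ (B : Type) [CommRing B] [IsNoetherianRing B] (J : Ideal B),
  ∃ (R : Type) (_ : CommRing R) (φ : B →+* R), Comp φ J

/-- THEOREM CO -/
theorem same (hN : HasComp) (H : TR p T ρ) (H' : TR p T' ρ') (hΦ : Tp p Φ ρ ρ')
    (hΦ' : Tp p Φ.symm ρ' ρ) (d : ℕ) :
    ∃ (R : Type) (_ : CommRing R) (φ : BB p T →+* R) (φ' : BB p T' →+* R),
      Comp φ (JJ p d (BB p T)) ∧ Comp φ' (JJ p d (BB p T')) ∧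
      ∀ (I : Ideal (BB p T)) (I' : Ideal (BB p T')), MI Φ I I' → I.map φ = I'.map φ' := by
  have h1 := H.noeth
  have h2 := H'.noeth
  have h3 := (BB p T).fg_iff_finiteType.1 H.BB_fg
  have h4 := (BB p T').fg_iff_finiteType.1 H'.BB_fg
  obtain ⟨R, _, φ, hφ⟩ := hN (BB p T) (JJ p d (BB p T))
  obtain ⟨R', _, ψ, hψ⟩ := hN (BB p T') (JJ p d (BB p T'))
  obtain ⟨φ', h5, h6⟩ := exists_same H H' hΦ hΦ' (MI.JJ d) (finite_JJ d) (finite_JJ d) hφ hψ
  exact ⟨R, _, φ, φ', hφ, h5, h6⟩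

end main

end Pool.Agent.SuCO
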