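import Pool.Agent.Lib.MP_305fdd_al.Su.CO.Int

/-!
# MP_305fdd_al, surface groups, block CO: the valuative criterion of integral dependence
-/

set_option autoImplicit false

namespace Pool.Agent.SuCO

open Pool.Agent.FrN

section ideals

variable {B : Type} [CommRing B]

theorem ideal_step (I : Ideal B) (b : B) (n : ℕ)
    (h : b ^ (n + 1) ∈ I * (I ⊔ Ideal.span {b}) ^ n) :
    (I ⊔ Ideal.span {b}) ^ (n + 1) ≤ I * (I ⊔ Ideal.span {b}) ^ n := by
  set J : Ideal B := I ⊔ Ideal.span {b} with hJ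
  have hb : Ideal.span {b} ≤ J := le_sup_right
  have key : ∀ d m : ℕ, m + d = n + 1 → Ideal.span {b} ^ m * J ^ d ≤ I * J ^ n := by
    intro d
    induction d with
    | zero =>
      intro m hm
      rw [add_zero] at hm
      rw [pow_zero, mul_one, hm, Ideal.span_singleton_pow, Ideal.span_le, Set.singleton_subset_iff]
      exact h
    | succ d ih =>
      intro m hm
      have h1 : Ideal.span {b} ^ m * J ^ (d + 1) =
          I * (Ideal.span {b} ^ m * J ^ d) ⊔ Ideal.span {b} ^ (m + 1) * J ^ d := by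
        rw [pow_succ J d, pow_succ (Ideal.span {b}) m]
        nth_rewrite 2 [hJ]
        rw [Ideal.mul_sup, Ideal.mul_sup]
        congr 1
        · ring
        · ring
      rw [h1]
      refine sup_le ?_ (ih (m + 1) (by omega))
      refine Ideal.mul_mono_right ?_
      have h2 : n = m + d := by omega
      rw [h2, pow_add J]
      exact Ideal.mul_mono_left (Ideal.pow_right_mono hb m)
  have := key (n + 1) 0 (by omega)
  rwa [pow_zero, one_mul] at this

theorem ideal_iter (I J : Ideal B) (n : ℕ) (h1 : J ^ (n + 1) ≤ I * J ^ n) (k : ℕ) :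
    J ^ (n + k) ≤ I ^ k * J ^ n := by
  induction k with
  | zero => rw [add_zero, pow_zero, one_mul]
  | succ k ih =>
    have e1 : J ^ (n + (k + 1)) = J ^ k * J ^ (n + 1) := by
      rw [← pow_add]
      congr 1
      omega
    have e2 : J ^ k * (I * J ^ n) = I * J ^ (n + k) := by
      rw [pow_add, ← mul_assoc, mul_comm (J ^ k) I, mul_assoc, mul_comm (J ^ k)]
    have e3 : I * (I ^ k * J ^ n) = I ^ (k + 1) * J ^ n := by
      rw [← mul_assoc, pow_succ' I k]
    rw [e1]
    refine (Ideal.mul_mono_right h1).trans ?_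
    rw [e2, ← e3]
    exact Ideal.mul_mono_right ih

theorem ideal_pow (I : Ideal B) (b : B) (n : ℕ)
    (h : b ^ (n + 1) ∈ I * (I ⊔ Ideal.span {b}) ^ n) (k : ℕ) : b ^ (n + k) ∈ I ^ k := by
  have hb : b ∈ I ⊔ Ideal.span {b} :=
    (le_sup_right : Ideal.span {b} ≤ I ⊔ Ideal.span {b}) (Ideal.mem_span_singleton_self b)
  have h1 : b ^ (n + k) ∈ (I ⊔ Ideal.span {b}) ^ (n + k) := Ideal.pow_mem_pow hb (n + k)
  have h2 : b ^ (n + k) ∈ I ^ k * (I ⊔ Ideal.span {b}) ^ n :=
    ideal_iter I (I ⊔ Ideal.span {b}) n (ideal_step I b n h) k h1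
  have h3 : I ^ k * (I ⊔ Ideal.span {b}) ^ n ≤ I ^ k := Ideal.mul_le_left
  exact h3 h2

end ideals

/-- the valuative criterion: if `b` is in `I V` for all valuation rings `V` which contain `B` then
`b ^ (n + k) ∈ I ^ k` for some `n` and all `k` -/
theorem pow_mem_of_val {p : ℕ} {K : Type} [Field K] [Algebra (ZMod p) K] (B : Subalgebra (ZMod p) K)
    (I : Ideal B) (b : B) (h : ∀ V : ValuationSubring K, (∀ x ∈ B, x ∈ V) →
      ∃ i ∈ I, ∃ v ∈ V, (b : K) = v * i) : ∃ n, ∀ k, b ^ (n + k) ∈ I ^ k := by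
  by_cases hb0 : b = 0
  · refine ⟨1, fun k => ?_⟩
    rw [hb0, zero_pow (by omega)]
    exact Ideal.zero_mem _
  have hbK : (b : K) ≠ 0 := fun h0 => hb0 (Subtype.ext h0)
  set J : Ideal B := I ⊔ Ideal.span {b} with hJ
  have hbJ : b ∈ J := (le_sup_right : Ideal.span {b} ≤ J) (Ideal.mem_span_singleton_self b)
  have hIJ : I ≤ J := le_sup_left
  let s : Set K := (B : Set K) ∪ {x | ∃ i ∈ I, x = (i : K) / b}
  let R : Subring K := Subring.closure s
  have claim1 : ∀ x ∈ R, ∃ n, ∃ y ∈ J ^ n, x * (b : K) ^ n = y := by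
    intro x hx
    induction hx using Subring.closure_induction with
    | mem x hx =>
      rcases hx with hx | ⟨i, hi, rfl⟩
      · exact ⟨0, ⟨x, hx⟩, by rw [pow_zero, Ideal.one_eq_top]; trivial, by rw [pow_zero, mul_one]⟩
      · exact ⟨1, i, by rw [pow_one]; exact hIJ hi, by rw [pow_one, div_mul_cancel₀ _ hbK]⟩
    | zero => exact ⟨0, 0, Ideal.zero_mem _, by simp⟩
    | one => exact ⟨0, 1, by rw [pow_zero, Ideal.one_eq_top]; trivial, by simp⟩
    | add x y _ _ hx hy =>
      obtain ⟨n, u, hu, h1⟩ := hx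
      obtain ⟨m, v, hv, h2⟩ := hy
      refine ⟨n + m, u * b ^ m + v * b ^ n, ?_, ?_⟩
      · refine Ideal.add_mem _ ?_ ?_
        · rw [pow_add]
          exact Ideal.mul_mem_mul hu (Ideal.pow_mem_pow hbJ m)
        · rw [add_comm n m, pow_add]
          exact Ideal.mul_mem_mul hv (Ideal.pow_mem_pow hbJ n)
      · push_cast
        rw [← h1, ← h2]
        ring
    | neg x _ hx =>
      obtain ⟨n, u, hu, h1⟩ := hx
      exact ⟨n, -u, Ideal.neg_mem_iff _ |>.2 hu, by push_cast; rw [← h1]; ring⟩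
    | mul x y _ _ hx hy =>
      obtain ⟨n, u, hu, h1⟩ := hx
      obtain ⟨m, v, hv, h2⟩ := hy
      refine ⟨n + m, u * v, ?_, ?_⟩
      · rw [pow_add]
        exact Ideal.mul_mem_mul hu hv
      · push_cast
        rw [← h1, ← h2]
        ring
  have hmem : ∀ i ∈ I, (i : K) / b ∈ R := fun i hi => Subring.subset_closure (Or.inr ⟨i, hi, rfl⟩)
  let q : Ideal R := Ideal.span {x | ∃ i ∈ I, (x : K) = (i : K) / b}
  have claim2 : ∀ x ∈ q, ∃ n, ∃ y ∈ I * J ^ n, (x : K) * (b : K) ^ (n + 1) = y := by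
    intro x hx
    induction hx using Submodule.span_induction with
    | mem x hx =>
      obtain ⟨i, hi, h1⟩ := hx
      refine ⟨0, i, ?_, ?_⟩
      · rw [pow_zero, mul_one]
        exact hi
      · rw [h1, zero_add, pow_one, div_mul_cancel₀ _ hbK]
    | zero => exact ⟨0, 0, Ideal.zero_mem _, by simp⟩
    | add x y _ _ hx hy =>
      obtain ⟨n, u, hu, h1⟩ := hx
      obtain ⟨m, v, hv, h2⟩ := hy
      refine ⟨n + m, u * b ^ m + v * b ^ n, ?_, ?_⟩
      · refine Ideal.add_mem _ ?_ ?_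
        · rw [pow_add, ← mul_assoc]
          exact Ideal.mul_mem_mul hu (Ideal.pow_mem_pow hbJ m)
        · rw [add_comm n m, pow_add, ← mul_assoc]
          exact Ideal.mul_mem_mul hv (Ideal.pow_mem_pow hbJ n)
      · push_cast
        rw [← h1, ← h2]
        ring
    | smul c x _ hx =>
      obtain ⟨n, u, hu, h1⟩ := claim1 c c.2
      obtain ⟨m, v, hv, h2⟩ := hx
      refine ⟨n + m, u * v, ?_, ?_⟩
      · have h3 : I * J ^ (n + m) = J ^ n * (I * J ^ m) := by ring
        rw [h3]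
        exact Ideal.mul_mem_mul hu hv
      · rw [smul_eq_mul]
        push_cast
        rw [← h1, ← h2]
        ring
  by_cases hq : q = ⊤
  · have h1 : (1 : R) ∈ q := by
      rw [hq]
      trivial
    obtain ⟨n, y, hy, h2⟩ := claim2 1 h1
    refine ⟨n, ideal_pow I b n ?_⟩
    have h3 : b ^ (n + 1) = y := by
      apply Subtype.ext
      rw [← h2]
      push_cast
      rw [one_mul]
    rw [h3]
    exact hy
  · exfalso
    obtain ⟨P, hP, hqP⟩ := Ideal.exists_le_maximal q hq
    obtain ⟨V, hV1, hV2⟩ := FrD.exists_dom R P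
    obtain ⟨i, hi, v, hv, h1⟩ := h V fun x hx => hV1 (Subring.subset_closure (Or.inl hx))
    have hi0 : (i : K) ≠ 0 := fun h0 => hbK (by rw [h1, h0, mul_zero])
    have h2 : (⟨(i : K) / b, hmem i hi⟩ : R) ∈ P := hqP (Ideal.subset_span ⟨i, hi, rfl⟩)
    have h3 := (hV2 _).2 h2
    have h4 : (i : K) / b ∈ V := hV1 (hmem i hi)
    have h5 : (⟨(i : K) / b, h4⟩ : V) ∈ IsLocalRing.maximalIdeal V :=
      (ValuationSubring.coe_mem_nonunits_iff (a := (⟨(i : K) / b, h4⟩ : V))).1 h3
    rw [IsLocalRing.mem_maximalIdeal, mem_nonunits_iff] at h5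
    apply h5
    refine IsUnit.of_mul_eq_one ⟨v, hv⟩ ?_
    apply Subtype.ext
    change (i : K) / b * v = 1
    rw [div_mul_eq_mul_div, mul_comm (i : K) v, ← h1, div_self hbK]

/-- LEMMA INT -/
theorem TR.int_pow {p : ℕ} {Γ K F : Type} [Group Γ] [Field K] [Field F] [Algebra (ZMod p) K]
    [Algebra (ZMod p) F] [Algebra K F] {T : Γ → K} {ρ : Γ →* Matrix.SpecialLinearGroup (Fin 2) F}
    (H : TR p T ρ) (I : Ideal (BB p T)) (b : BB p T)
    (hb : H.inc b ∈ I.map (H.inc : BB p T →+* OO p ρ)) : ∃ n, ∀ k, b ^ (n + k) ∈ I ^ k :=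
  pow_mem_of_val (BB p T) I b fun V hV => H.int_val V hV I b hb

end Pool.Agent.SuCO
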