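import Pool.Agent.Lib.MP_305fdd_al.Su.CO.Cl
import Pool.Agent.Lib.MP_305fdd_al.Su.CO.Vc
import Pool.Agent.Lib.MP_305fdd_al.Fr.N.Hlp

/-!
# MP_305fdd_al, surface groups, block CO: the topologies of the trace ring

`exists_test`: a `p`-basis and a test element of a finitely generated domain.
`TR.topo`: for every ideal `I` of the trace ring `B` and all `j` there is `N` such that the elements of `B`
in the ideal of `O` generated by `I ^ N` are in `I ^ j`.
-/

set_option autoImplicit false

namespace Pool.Agent.SuCO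

open Pool.Agent.FrN Pool.Agent.F2Ch Pool.Agent.F2RF

section den

variable {p : ℕ} {K : Type} [Field K] [Algebra (ZMod p) K] {B : Subalgebra (ZMod p) K}

theorem exists_den (hB : Frc B) {ι : Type} (s : Finset ι) (f : ι → K) :
    ∃ δ : B, δ ≠ 0 ∧ ∀ i ∈ s, (δ : K) * f i ∈ B := by
  classical
  induction s using Finset.induction_on with
  | empty => exact ⟨1, one_ne_zero, by simp⟩
  | insert i s _ ih =>
    obtain ⟨δ, hδ, h1⟩ := ih
    obtain ⟨a, ha, b, hb, hb0, hab⟩ := hB (f i)
    refine ⟨δ * ⟨b, hb⟩, mul_ne_zero hδ fun h0 => hb0 (congrArg Subtype.val h0), fun j hj => ?_⟩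
    rcases Finset.mem_insert.1 hj with rfl | hj
    · change ((δ : K) * b) * f j ∈ B
      rw [mul_assoc, mul_comm b, hab]
      exact mul_mem δ.2 ha
    · change ((δ : K) * b) * f j ∈ B
      rw [mul_right_comm]
      exact mul_mem (h1 j hj) hb

/-- a test element -/
theorem exists_test [Fact p.Prime] [CharP K p] (hfg : B.FG) (hB : Frc B) :
    ∃ (ι : Type) (_ : Fintype ι) (w : ι → K) (π : ι → K → K) (i₀ : ι) (e : B),
      IsPB p w π ∧ (∀ i, w i ∈ B) ∧ w i₀ = 1 ∧ e ≠ 0 ∧ ∀ b ∈ B, ∀ i, π i (e * b) ∈ B := by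
  classical
  have hft : Algebra.FiniteType (ZMod p) B := B.fg_iff_finiteType.1 hfg
  have hess : ∃ n : ℕ, Algebra.trdeg (ZMod p) K = n := by
    obtain ⟨m, g, hg⟩ := pbex_frac p K B hfg hB
    have h1 : Algebra.IsAlgebraic (Algebra.adjoin (ZMod p) (Set.range g)) K := by
      refine ⟨fun x => ?_⟩
      obtain ⟨a, b, hb0, hab⟩ := hg x
      have ha' : MvPolynomial.aeval g a ∈ Algebra.adjoin (ZMod p) (Set.range g) := by
        rw [Algebra.adjoin_range_eq_range_aeval]
        exact ⟨a, rfl⟩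
      have hb' : MvPolynomial.aeval g b ∈ Algebra.adjoin (ZMod p) (Set.range g) := by
        rw [Algebra.adjoin_range_eq_range_aeval]
        exact ⟨b, rfl⟩
      refine ⟨Polynomial.C ⟨_, hb'⟩ * Polynomial.X - Polynomial.C ⟨_, ha'⟩, ?_, ?_⟩
      · intro h0
        have h2 := congrArg (fun P => Polynomial.coeff P 1) h0
        simp only [Polynomial.coeff_sub, Polynomial.coeff_C_mul, Polynomial.coeff_X_one, mul_one,
          Polynomial.coeff_C_succ, sub_zero, Polynomial.coeff_zero] at h2
        exact hb0 (congrArg Subtype.val h2)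
      · simp only [map_sub, map_mul, Polynomial.aeval_C, Polynomial.aeval_X]
        change MvPolynomial.aeval g b * x - MvPolynomial.aeval g a = 0
        rw [mul_comm, hab, sub_self]
    have h2 : Algebra.trdeg (ZMod p) K ≤ Cardinal.mk (Set.range g) :=
      Algebra.IsAlgebraic.trdeg_le_cardinalMk (ZMod p) (Set.range g)
    have h3 : Cardinal.mk (Set.range g) < Cardinal.aleph0 :=
      Cardinal.lt_aleph0_iff_finite.2 (Set.finite_range g).to_subtype
    obtain ⟨n, hn⟩ := Cardinal.lt_aleph0.1 (lt_of_le_of_lt h2 h3)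
    exact ⟨n, hn⟩
  obtain ⟨n, hn⟩ := hess
  obtain ⟨t, π, ht, hMB⟩ := p_pbex p K B hfg hB n hn
  obtain ⟨k, f, hf⟩ := Algebra.FiniteType.iff_quotient_mvPolynomial''.1 hft
  -- the monomials of the generators with exponents in `[0, p)`
  let m : (Fin k → Fin p) → K := fun β => ((∏ i, f (MvPolynomial.X i) ^ (β i : ℕ) : B) : K)
  obtain ⟨δ, hδ, h1⟩ := exists_den hB (Finset.univ : Finset ((Fin n → Fin p) × (Fin k → Fin p)))
    fun x => π x.1 (m x.2)
  have hp := (Fact.out : p.Prime).two_le
  have : NeZero p := ⟨by omega⟩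
  refine ⟨Fin n → Fin p, inferInstance, monY (p := p) t, π, fun _ => 0, δ ^ p, hMB.pb, ?_, ?_,
    pow_ne_zero _ hδ, ?_⟩
  · intro i
    exact prod_mem fun j _ => pow_mem (ht j) _
  · exact Finset.prod_eq_one fun j _ => by rw [Fin.val_zero, pow_zero]
  · have key : ∀ P : MvPolynomial (Fin k) (ZMod p), ∀ i, π i ((δ ^ p : B) * (f P : K)) ∈ B := by
      intro P
      induction P using MvPolynomial.induction_on' with
      | monomial u a =>
        intro i
        let β : Fin k → Fin p := fun j => ⟨u j % p, Nat.mod_lt _ (by omega)⟩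
        let c : B := algebraMap (ZMod p) B a * ∏ j, f (MvPolynomial.X j) ^ (u j / p)
        have h2 : f (MvPolynomial.monomial u a) = c ^ p * ∏ j, f (MvPolynomial.X j) ^ (β j : ℕ) := by
          rw [MvPolynomial.monomial_eq, map_mul, map_finsuppProd, mul_pow, ← map_pow (algebraMap (ZMod p) B),
            ZMod.pow_card, mul_assoc]
          congr 1
          · exact f.commutes a
          · rw [← Finset.prod_pow, ← Finset.prod_mul_distrib, Finsupp.prod_fintype _ _ (fun j => by
              rw [pow_zero, map_one])]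
            refine Finset.prod_congr rfl fun j _ => ?_
            rw [map_pow, ← pow_mul, ← pow_add]
            congr 1
            change u j = u j / p * p + u j % p
            rw [mul_comm, Nat.div_add_mod]
        have h3 : (((δ ^ p : B)) : K) * (f (MvPolynomial.monomial u a) : K) =
            ((δ * c : B) : K) ^ p * m β := by
          rw [h2]
          change _ = ((δ * c : B) : K) ^ p * ((∏ i, f (MvPolynomial.X i) ^ (β i : ℕ) : B) : K)
          push_cast
          ring
        rw [h3, pb_mul hMB.pb]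
        push_cast
        rw [mul_comm (δ : K) c, mul_assoc]
        exact mul_mem c.2 (h1 (i, β) (Finset.mem_univ _))
      | add P Q h2 h3 =>
        intro i
        rw [map_add]
        push_cast
        rw [mul_add, pb_add hMB.pb]
        have h4 := h2 i
        have h5 := h3 i
        push_cast at h4 h5
        exact add_mem h4 h5
    intro b hb i
    obtain ⟨P, hP⟩ := hf ⟨b, hb⟩
    have := key P i
    rw [hP] at this
    exact this

end den

section fp

variable {R : Type} [CommRing R]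

theorem span_pow_le [DecidableEq R] (S : Finset R) (n : ℕ) : (Ideal.span (S : Set R)) ^ n ≤
    Ideal.span {z | ∃ α : R → ℕ, ∑ x ∈ S, α x = n ∧ z = ∏ x ∈ S, x ^ α x} := by
  induction n with
  | zero =>
    rw [pow_zero, Ideal.one_eq_top]
    have h1 : (1 : R) ∈ Ideal.span {z | ∃ α : R → ℕ, ∑ x ∈ S, α x = 0 ∧ z = ∏ x ∈ S, x ^ α x} :=
      Ideal.subset_span ⟨fun _ => 0, by simp, by simp⟩
    rw [(Ideal.eq_top_iff_one _).2 h1]
  | succ n ih =>
    rw [pow_succ]
    refine (Ideal.mul_mono_left ih).trans ?_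
    rw [Ideal.span_mul_span', Ideal.span_le]
    rintro _ ⟨z, ⟨α, hα, rfl⟩, y, hy, rfl⟩
    refine Ideal.subset_span ⟨Function.update α y (α y + 1), ?_, ?_⟩
    · rw [Finset.sum_update_of_mem hy, ← hα, ← Finset.add_sum_erase S α hy, Finset.sdiff_singleton_eq_erase]
      ring
    · change (∏ x ∈ S, x ^ α x) * y = _
      rw [← Finset.mul_prod_erase S (fun x => x ^ α x) hy,
        ← Finset.mul_prod_erase S (fun x => x ^ Function.update α y (α y + 1) x) hy,
        Function.update_self]
      rw [Finset.prod_congr rfl (fun x hx => by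
        rw [Function.update_of_ne (Finset.ne_of_mem_erase hx)] :
        ∀ x ∈ S.erase y, x ^ Function.update α y (α y + 1) x = x ^ α x)]
      ring

/-- high powers are contained in the ideals generated by the `q`-th powers -/
theorem pow_le_FP (S : Finset R) (a q : ℕ) (hq : 1 ≤ q) :
    (Ideal.span (S : Set R)) ^ ((a + S.card) * q) ≤ FP (Ideal.span (S : Set R) ^ a) q := by
  classical
  refine (span_pow_le S _).trans ?_
  rw [Ideal.span_le]
  rintro _ ⟨α, hα, rfl⟩
  have h1 : ∏ x ∈ S, x ^ α x = (∏ x ∈ S, x ^ (α x / q)) ^ q * ∏ x ∈ S, x ^ (α x % q) := by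
    rw [← Finset.prod_pow, ← Finset.prod_mul_distrib]
    refine Finset.prod_congr rfl fun x _ => ?_
    rw [← pow_mul, ← pow_add, mul_comm, Nat.div_add_mod]
  rw [h1]
  refine Ideal.mul_mem_right _ _ (Ideal.subset_span ⟨_, ?_, rfl⟩)
  have h2 : a ≤ ∑ x ∈ S, α x / q := by
    have h3 : ∑ x ∈ S, α x ≤ ∑ x ∈ S, (q * (α x / q) + (q - 1)) := by
      refine Finset.sum_le_sum fun x _ => ?_
      have h4 := Nat.div_add_mod (α x) q
      have h5 := Nat.mod_lt (α x) (show 0 < q by omega)
      omega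
    rw [Finset.sum_add_distrib, ← Finset.mul_sum, Finset.sum_const, smul_eq_mul, hα] at h3
    obtain ⟨r, rfl⟩ : ∃ r, q = r + 1 := ⟨q - 1, by omega⟩
    rw [Nat.add_sub_cancel] at h3
    by_contra hlt
    have h6 : ∑ x ∈ S, α x / (r + 1) + 1 ≤ a := by omega
    have h7 : (r + 1) * (∑ x ∈ S, α x / (r + 1) + 1) ≤ (r + 1) * a := Nat.mul_le_mul_left _ h6
    nlinarith
  have h8 : ∏ x ∈ S, x ^ (α x / q) ∈ Ideal.span (S : Set R) ^ ∑ x ∈ S, α x / q := by
    rw [← Finset.prod_pow_eq_pow_sum]
    exact Ideal.prod_mem_prod fun x hx => Ideal.pow_mem_pow (Ideal.subset_span hx) _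
  exact Ideal.pow_le_pow_right h2 h8

end fp

section topo

variable {p : ℕ} {Γ K F : Type} [Group Γ] [Field K] [Field F] [Algebra (ZMod p) K]
    [Algebra (ZMod p) F] [Algebra K F] {T : Γ → K} {ρ : Γ →* Matrix.SpecialLinearGroup (Fin 2) F}

theorem TR.one (H : TR p T ρ) : T 1 = 2 := by
  apply (algebraMap K F).injective
  rw [← H.tr, map_one, map_ofNat]
  simp

theorem TR.comm (H : TR p T ρ) (g h : Γ) : T (g * h) = T (h * g) := by
  apply (algebraMap K F).injective
  rw [← H.tr, ← H.tr, map_mul, map_mul]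
  exact Matrix.trace_mul_comm (ρ g).1 (ρ h).1

theorem TR.rel (H : TR p T ρ) (g h : Γ) : T (g * h) + T (g * h⁻¹) = T g * T h := by
  apply (algebraMap K F).injective
  rw [map_add, map_mul, ← H.tr, ← H.tr, ← H.tr, ← H.tr, map_mul, map_mul, map_inv]
  exact tr_rel _ _

theorem TR.BB_fg [Fact p.Prime] (H : TR p T ρ) : (BB p T).FG := by
  have := H.fg
  have h1 : Pool.Agent.CC.PChar (F := ZMod p) (1 : Γ →* (ZMod p)ˣ) T :=
    { one := H.one
      comm := H.comm
      rel := fun g h => by
        rw [MonoidHom.one_apply, Units.val_one, map_one, one_mul]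
        exact H.rel g h }
  exact h1.fg

/-- for every ideal `I` of the trace ring there is `N` such that the elements of the trace ring in the
ideal of `O` generated by `I ^ N` are in `I` -/
theorem TR.topo [Fact p.Prime] (H : TR p T ρ) (I : Ideal (BB p T)) :
    ∃ N : ℕ, ∀ b : BB p T, H.inc b ∈ (I ^ N).map (H.inc : BB p T →+* OO p ρ) → b ∈ I := by
  have hchar : CharP K p := charP_of_injective_algebraMap (algebraMap (ZMod p) K).injective p
  obtain ⟨ι, _, w, π, i₀, e, hPB, hw, h0, he, hE⟩ := exists_test H.BB_fg H.frac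
  have hft : Algebra.FiniteType (ZMod p) (BB p T) := (BB p T).fg_iff_finiteType.1 H.BB_fg
  have hnoeth : IsNoetherianRing (BB p T) := Algebra.FiniteType.isNoetherianRing (ZMod p) (BB p T)
  obtain ⟨S, hS⟩ := (isNoetherianRing_iff_ideal_fg _).1 hnoeth I
  obtain ⟨k, hk⟩ := I.exists_pow_inf_eq_pow_smul (Ideal.span {e ^ 2})
  refine ⟨k + 1 + S.card, fun b hb => ?_⟩
  by_cases hb0 : b = 0
  · rw [hb0]
    exact I.zero_mem
  obtain ⟨n, hn⟩ := H.int_pow _ b hb
  have h1 : e ^ 2 * b ∈ I ^ (k + 1) := by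
    refine cl_main H.BB_fg hPB hw h0 hE (I ^ (k + 1)) (b ^ n) b (pow_ne_zero _ hb0) fun m => ?_
    have h2 := hn (p ^ m)
    rw [← pow_mul, pow_add, ← hS] at h2
    rw [← hS]
    exact pow_le_FP S (k + 1) (p ^ m) (Nat.one_le_pow _ _ (Fact.out : p.Prime).pos) h2
  have h3 : e ^ 2 * b ∈ I ^ (k + 1) • (⊤ : Ideal (BB p T)) ⊓ Ideal.span {e ^ 2} := by
    refine ⟨?_, Ideal.mem_span_singleton.2 ⟨b, rfl⟩⟩
    rw [smul_eq_mul, Ideal.mul_top]
    exact h1
  rw [hk (k + 1) (by omega)] at h3
  have h4 : I ^ (k + 1 - k) • (I ^ k • (⊤ : Ideal (BB p T)) ⊓ Ideal.span {e ^ 2}) ≤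
      I * Ideal.span {e ^ 2} := by
    rw [show k + 1 - k = 1 by omega, pow_one, smul_eq_mul]
    exact Ideal.mul_mono_right inf_le_right
  have h5 := h4 h3
  rw [mul_comm, Ideal.mem_span_singleton_mul] at h5
  obtain ⟨z, hz, h6⟩ := h5
  rwa [mul_left_cancel₀ (pow_ne_zero 2 he) h6] at hz

end topo

end Pool.Agent.SuCO
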