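import Pool.Agent.Lib.MP_305fdd_al.Su.CO.Same
import Pool.Agent.Lib.MP_305fdd_al.Su.CO.Lim

/-!
# MP_305fdd_al, surface groups, block CO: transport of specialisations from universality

`UG p ρ Z`: every representation `r` over a ring `R` in which the ideal generated by `Z R r` has
annihilator `0` is a specialisation of `ρ` (`Z` is a natural set of elements attached to the
representations, for instance all the `tr r(g) - 2`, `g ∈ X`).  This is the universal property of the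
quotient of the universal ring by the `I`-power torsion, `I` the ideal generated by `Z`.
-/

set_option autoImplicit false

namespace Pool.Agent.SuCO

open Pool.Agent.FrN Pool.Agent.FrNA Pool.Agent.Lib.MP_305fdd_al Pool.Agent.SuTR Pool.Agent.SuInd
open Matrix

/-- a natural set of elements attached to the representations -/
structure Zf (Γ : Type) [Group Γ] where
  /-- the set -/
  Z : ∀ (R : Type) [CommRing R], (Γ →* SpecialLinearGroup (Fin 2) R) → Set R
  nat : ∀ {R S : Type} [CommRing R] [CommRing S] (f : R →+* S)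
    (r : Γ →* SpecialLinearGroup (Fin 2) R),
    Z S ((SpecialLinearGroup.map f).comp r) = f '' Z R r

/-- every representation whose ideal has annihilator `0` is a specialisation -/
def UG (p : ℕ) {Γ F : Type} [Group Γ] [Field F] [Algebra (ZMod p) F]
    (ρ : Γ →* SpecialLinearGroup (Fin 2) F) (Z : Zf Γ) : Prop :=
  ∀ (R : Type) [CommRing R] [Algebra (ZMod p) R] (r : Γ →* SpecialLinearGroup (Fin 2) R),
    (∀ x : R, (∀ z ∈ Z.Z R r, x * z = 0) → x = 0) → Sp p ρ r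

/-- `Z` and `Z'` agree over the finite rings -/
def ZM {Λ Δ : Type} [Group Λ] [Group Δ] (Φ : NatBij Λ Δ) (Z : Zf Λ) (Z' : Zf Δ) : Prop :=
  ∀ (R : Type) [CommRing R] [Finite R] [Finite (SpecialLinearGroup (Fin 2) R)]
    (r : Λ →* SpecialLinearGroup (Fin 2) R),
    Z'.Z R (Φ.toFun (SpecialLinearGroup (Fin 2) R) r) = Z.Z R r

theorem Sp.map {p : ℕ} {Γ F : Type} [Group Γ] [Field F] [Algebra (ZMod p) F]
    {ρ : Γ →* SpecialLinearGroup (Fin 2) F} {R S : Type} [CommRing R] [Algebra (ZMod p) R]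
    [CommRing S] [Algebra (ZMod p) S] {r : Γ →* SpecialLinearGroup (Fin 2) R} (h : Sp p ρ r)
    (f : R →ₐ[ZMod p] S) : Sp p ρ ((SpecialLinearGroup.map (f : R →+* S)).comp r) := by
  obtain ⟨φ, hφ⟩ := h
  refine ⟨f.comp φ, fun g i j => ?_⟩
  change f (φ _) = f ((r g).1 i j)
  rw [hφ]

section main

variable {p : ℕ} [Fact p.Prime] {Λ Δ F F' : Type} [Group Λ] [Group Δ]
  [Field F] [Field F'] [Algebra (ZMod p) F] [Algebra (ZMod p) F']
  {ρ : Λ →* SpecialLinearGroup (Fin 2) F} {ρ' : Δ →* SpecialLinearGroup (Fin 2) F'}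
  {Φ : NatBij Λ Δ} {Z : Zf Λ} {Z' : Zf Δ}

/-- TRANSPORT -/
theorem Tp.of_UG (hN : HasComp) (hfg : Group.FG Λ) (hZ : ZM Φ Z Z') (hU : UG p ρ' Z')
    (h0 : ∃ z ∈ Z.Z F ρ, z ≠ 0) : Tp p Φ ρ ρ' := by
  intro R₀ _ _ hR₀ hSL r hr
  obtain ⟨φ₀, hφ₀⟩ := hr
  let O := OO p ρ
  let J : Ideal O := RingHom.ker (φ₀ : O →+* R₀)
  have hOft : Algebra.FiniteType (ZMod p) O := (OO p ρ).fg_iff_finiteType.1 (FrRoq.OO_fg ρ hfg)
  have hON : IsNoetherianRing O := Algebra.FiniteType.isNoetherianRing (ZMod p) O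
  have hOJ : Finite (O ⧸ J) := Finite.of_injective _ (RingHom.kerLift_injective (φ₀ : O →+* R₀))
  have hfin : ∀ n : ℕ, Finite (O ⧸ J ^ n) := fun n =>
    Ideal.finite_quotient_pow (IsNoetherian.noetherian J) n
  have hfinSL : ∀ n : ℕ, Finite (SpecialLinearGroup (Fin 2) (O ⧸ J ^ n)) := fun n => finite_SL
  obtain ⟨Oc, _, ι, hι⟩ := hN O J
  -- the representation over `O`
  let ρO : Λ →* SpecialLinearGroup (Fin 2) O := redOO ρ (AlgHom.id (ZMod p) O)
  have hρO : (SpecialLinearGroup.map (O.val : O →+* F)).comp ρO = ρ := by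
    ext g i j
    rfl
  obtain ⟨z₀, hz₀, hz₀'⟩ : ∃ z ∈ Z.Z O ρO, z ≠ 0 := by
    obtain ⟨z, hz, hz'⟩ := h0
    rw [← hρO, Z.nat] at hz
    obtain ⟨y, hy, rfl⟩ := hz
    exact ⟨y, hy, fun h => hz' (by rw [h, map_zero])⟩
  let rn : ∀ n : ℕ, Λ →* SpecialLinearGroup (Fin 2) (O ⧸ J ^ n) := fun n =>
    (SpecialLinearGroup.map (Ideal.Quotient.mk (J ^ n))).comp ρO
  let sn : ∀ n : ℕ, Δ →* SpecialLinearGroup (Fin 2) (O ⧸ J ^ n) := fun n => Φ.toFun _ (rn n)
  have hsn : ∀ n g, SpecialLinearGroup.map (tr J n) (sn (n + 1) g) = sn n g := by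
    intro n g
    have h1 := Φ.nat (SpecialLinearGroup.map (tr J n)) (rn (n + 1))
    have h2 : (SpecialLinearGroup.map (tr J n)).comp (rn (n + 1)) = rn n := by
      ext g i j
      rfl
    rw [h2] at h1
    exact (DFunLike.congr_fun h1 g).symm
  obtain ⟨s, hs⟩ := exists_lim_rep hι sn hsn
  have hs' : ∀ n, (SpecialLinearGroup.map (pr hι n)).comp s = sn n := fun n =>
    MonoidHom.ext fun g => hs n g
  -- the annihilator
  have hann : ∀ x : Oc, (∀ z ∈ Z'.Z Oc s, x * z = 0) → x = 0 := by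
    intro x hx
    refine nzd hι (b := z₀) (fun c hc => (mul_eq_zero.1 hc).resolve_right hz₀') ?_
    refine pr_ext hι fun n => ?_
    rw [map_zero, map_mul, pr_apply]
    have h1 : Ideal.Quotient.mk (J ^ n) z₀ ∈ Z.Z (O ⧸ J ^ n) (rn n) := by
      rw [Z.nat]
      exact ⟨z₀, hz₀, rfl⟩
    rw [← hZ (O ⧸ J ^ n) (rn n)] at h1
    change _ ∈ Z'.Z (O ⧸ J ^ n) (sn n) at h1
    rw [← hs' n, Z'.nat] at h1
    obtain ⟨z', hz', h2⟩ := h1
    rw [← h2, ← map_mul, hx z' hz', map_zero]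
  let _ : Algebra (ZMod p) Oc := (ι.comp (algebraMap (ZMod p) O)).toAlgebra
  have hsp := hU Oc s hann
  -- back to `R₀`
  let q : Oc →ₐ[ZMod p] O ⧸ J ^ 1 :=
    { pr hι 1 with
      commutes' := fun c => by
        change pr hι 1 (ι (algebraMap (ZMod p) O c)) = _
        rw [pr_apply]
        rfl }
  let f : O ⧸ J ^ 1 →ₐ[ZMod p] R₀ := Ideal.Quotient.liftₐ (J ^ 1) φ₀ fun x hx => by
    rw [pow_one] at hx
    exact hx
  have h3 := (hsp.map q).map f
  have h4 : (SpecialLinearGroup.map (q : Oc →+* O ⧸ J ^ 1)).comp s = sn 1 := hs' 1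
  rw [h4] at h3
  have h5 := Φ.nat (SpecialLinearGroup.map (f : O ⧸ J ^ 1 →+* R₀)) (rn 1)
  have h6 : (SpecialLinearGroup.map (f : O ⧸ J ^ 1 →+* R₀)).comp (rn 1) = r := by
    ext g i j
    exact hφ₀ g i j
  rw [h6] at h5
  rw [h5]
  exact h3

/-- the conjugates of `ρ` are specialisations -/
theorem TR.of_UG {K : Type} [Field K] [Algebra (ZMod p) K] [Algebra K F] {T : Λ → K}
    (hfg : Group.FG Λ) (htr : ∀ g, (ρ g).1.trace = algebraMap K F (T g)) (hfr : Frc (BB p T))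
    (hU : UG p ρ Z) (h0 : ∀ (P Q : Matrix (Fin 2) (Fin 2) F) (h : P * Q = 1),
      ∃ z ∈ Z.Z F ((cjM P Q h).comp ρ), z ≠ 0) : TR p T ρ where
  fg := hfg
  tr := htr
  frac := hfr
  cj P Q h := by
    obtain ⟨z, hz, hz'⟩ := h0 P Q h
    exact hU F _ fun x hx => (mul_eq_zero.1 (hx z hz)).resolve_right hz'

end main

/-! ### Sets of traces -/

/-- the elements `tr r(g) - 2`, `g ∈ X` -/
def zX {Γ : Type} [Group Γ] (X : Set Γ) : Zf Γ where
  Z R _ r := (fun g => (r g).1.trace - 2) '' X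
  nat f r := by
    rw [Set.image_image]
    refine Set.image_congr fun g _ => ?_
    rw [map_sub, map_ofNat, Matrix.trace_fin_two, Matrix.trace_fin_two, map_add]
    rfl

/-- `X` and `X'` have the same images in the finite groups -/
def MS {Λ Δ : Type} [Group Λ] [Group Δ] (Φ : NatBij Λ Δ) (X : Set Λ) (X' : Set Δ) : Prop :=
  ∀ (Q : Type) [Group Q] [Finite Q] (θ : Λ →* Q), θ '' X = Φ.toFun Q θ '' X'

theorem MS.symm {Λ Δ : Type} [Group Λ] [Group Δ] {Φ : NatBij Λ Δ} {X : Set Λ} {X' : Set Δ}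
    (h : MS Φ X X') : MS Φ.symm X' X := by
  intro Q _ _ θ
  have h1 := h Q (Φ.symm.toFun Q θ)
  rw [h1, show Φ.toFun Q (Φ.symm.toFun Q θ) = θ from Φ.right_inv Q θ]

theorem MS.zM {Λ Δ : Type} [Group Λ] [Group Δ] {Φ : NatBij Λ Δ} {X : Set Λ} {X' : Set Δ}
    (h : MS Φ X X') : ZM Φ (zX X) (zX X') := by
  intro R _ _ _ r
  have h1 := congrArg (fun U => (fun q : SpecialLinearGroup (Fin 2) R => q.1.trace - 2) '' U)
    (h _ r)
  simp only [Set.image_image] at h1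
  exact h1.symm

/-- natural families of sets match -/
theorem MS.of_nat {Λ Δ : Type} [Group Λ] [Group Δ] (Φ : NatBij Λ Δ)
    (W : ∀ (G : Type) [Group G], Set G)
    (hW : ∀ (G H : Type) [Group G] [Group H] (f : G →* H), Function.Surjective f →
      f '' W G = W H) : MS Φ (W Λ) (W Δ) := by
  intro Q _ _ θ
  have key : ∀ (G : Type) [Group G] (f : G →* Q), f '' W G = Subtype.val '' W f.range := by
    intro G _ f
    rw [← hW G f.range f.rangeRestrict f.rangeRestrict_surjective, Set.image_image]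
    rfl
  rw [key Λ θ, key Δ (Φ.toFun Q θ)]
  have h1 : ∀ S S' : Subgroup Q, S = S' →
      (Subtype.val '' W S : Set Q) = Subtype.val '' W S' := by
    rintro S _ rfl
    rfl
  exact h1 _ _ (Φ.range_eq θ).symm

/-- the subgroup generated by the squares -/
def Sq (G : Type) [Group G] : Subgroup G := Subgroup.closure (Set.range fun x : G => x ^ 2)

open scoped commutatorElement in
/-- the commutators of the elements of the subgroup generated by the squares -/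
def Xb (G : Type) [Group G] : Set G := {z | ∃ x ∈ Sq G, ∃ y ∈ Sq G, z = ⁅x, y⁆}

theorem Sq_map {G H : Type} [Group G] [Group H] (f : G →* H) (hf : Function.Surjective f) :
    (Sq G).map f = Sq H := by
  unfold Sq
  rw [MonoidHom.map_closure]
  congr 1
  ext z
  constructor
  · rintro ⟨_, ⟨x, rfl⟩, rfl⟩
    exact ⟨f x, (map_pow f x 2).symm⟩
  · rintro ⟨y, rfl⟩
    obtain ⟨x, rfl⟩ := hf y
    exact ⟨x ^ 2, ⟨x, rfl⟩, map_pow f x 2⟩

open scoped commutatorElement in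
theorem Xb_map {G H : Type} [Group G] [Group H] (f : G →* H) (hf : Function.Surjective f) :
    f '' Xb G = Xb H := by
  have h1 := Sq_map f hf
  ext z
  constructor
  · rintro ⟨_, ⟨x, hx, y, hy, rfl⟩, rfl⟩
    exact ⟨f x, h1 ▸ Subgroup.mem_map_of_mem f hx, f y, h1 ▸ Subgroup.mem_map_of_mem f hy,
      map_commutatorElement f x y⟩
  · rintro ⟨x, hx, y, hy, rfl⟩
    rw [← h1] at hx hy
    obtain ⟨x, hx, rfl⟩ := hx
    obtain ⟨y, hy, rfl⟩ := hy
    exact ⟨⁅x, y⁆, ⟨x, hx, y, hy, rfl⟩, map_commutatorElement f x y⟩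

theorem MS_Xb {Λ Δ : Type} [Group Λ] [Group Δ] (Φ : NatBij Λ Δ) : MS Φ (Xb Λ) (Xb Δ) :=
  MS.of_nat Φ Xb fun _ _ _ _ f hf => Xb_map f hf

theorem MS_univ {Λ Δ : Type} [Group Λ] [Group Δ] (Φ : NatBij Λ Δ) :
    MS Φ (Set.univ : Set Λ) (Set.univ : Set Δ) :=
  MS.of_nat Φ (fun _ _ => Set.univ) fun _ _ _ _ f hf => by
    rw [Set.image_univ, Set.range_eq_univ]
    exact hf

section final

variable {p : ℕ} [Fact p.Prime] {Λ Δ K K' F F' : Type} [Group Λ] [Group Δ] [Field K] [Field K']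
  [Field F] [Field F'] [Algebra (ZMod p) K] [Algebra (ZMod p) K'] [Algebra (ZMod p) F]
  [Algebra (ZMod p) F'] [Algebra K F] [Algebra K' F'] {T : Λ → K} {T' : Δ → K'}
  {ρ : Λ →* SpecialLinearGroup (Fin 2) F} {ρ' : Δ →* SpecialLinearGroup (Fin 2) F'}
  {Φ : NatBij Λ Δ} {X : Set Λ} {X' : Set Δ}

theorem TR.of_UGX (hfg : Group.FG Λ) (htr : ∀ g, (ρ g).1.trace = algebraMap K F (T g))
    (hfr : Frc (BB p T)) (hU : UG p ρ (zX X)) (h0 : ∃ g ∈ X, T g ≠ 2) : TR p T ρ := by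
  refine TR.of_UG hfg htr hfr hU fun P Q h => ?_
  obtain ⟨g, hg, hg'⟩ := h0
  refine ⟨_, ⟨g, hg, rfl⟩, ?_⟩
  change (P * (ρ g).1 * Q).trace - 2 ≠ 0
  rw [Matrix.trace_mul_cycle, mul_eq_one_comm.1 h, one_mul, htr, Ne, sub_eq_zero]
  intro h1
  apply hg'
  apply (algebraMap K F).injective
  rw [h1, map_ofNat]

omit [Algebra (ZMod p) K] in
theorem Tp.of_UGX (hN : HasComp) (hfg : Group.FG Λ)
    (htr : ∀ g, (ρ g).1.trace = algebraMap K F (T g)) (hX : MS Φ X X')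
    (hU : UG p ρ' (zX X')) (h0 : ∃ g ∈ X, T g ≠ 2) : Tp p Φ ρ ρ' := by
  refine Tp.of_UG hN hfg hX.zM hU ?_
  obtain ⟨g, hg, hg'⟩ := h0
  refine ⟨_, ⟨g, hg, rfl⟩, ?_⟩
  change (ρ g).1.trace - 2 ≠ 0
  rw [htr, Ne, sub_eq_zero]
  intro h1
  apply hg'
  apply (algebraMap K F).injective
  rw [h1, map_ofNat]

/-- THEOREM CO from the universal properties -/
theorem same_UG (hN : HasComp) (hfg : Group.FG Λ) (hfg' : Group.FG Δ)
    (htr : ∀ g, (ρ g).1.trace = algebraMap K F (T g))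
    (htr' : ∀ g, (ρ' g).1.trace = algebraMap K' F' (T' g))
    (hfr : Frc (BB p T)) (hfr' : Frc (BB p T')) (hX : MS Φ X X') (hU : UG p ρ (zX X))
    (hU' : UG p ρ' (zX X')) (h0 : ∃ g ∈ X, T g ≠ 2) (h0' : ∃ g ∈ X', T' g ≠ 2) (d : ℕ) :
    ∃ (R : Type) (_ : CommRing R) (φ : BB p T →+* R) (φ' : BB p T' →+* R),
      Comp φ (JJ p d (BB p T)) ∧ Comp φ' (JJ p d (BB p T')) ∧
      ∀ (I : Ideal (BB p T)) (I' : Ideal (BB p T')), MI Φ I I' → I.map φ = I'.map φ' :=
  same hN (TR.of_UGX hfg htr hfr hU h0) (TR.of_UGX hfg' htr' hfr' hU' h0')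
    (Tp.of_UGX hN hfg htr hX hU' h0) (Tp.of_UGX hN hfg' htr' hX.symm hU h0') d

end final

end Pool.Agent.SuCO
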